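import Mathlib

/-!
# MP_b6c7ab_al: definitions

`N4` is the nilpotent group `Z^3 ⋊ Z`, with coordinates `(a,b,c,t)` standing for
`y^a d^b z^c x^t` where `x y x⁻¹ = y d z`, `x d x⁻¹ = d z^2`, and `y, d, z` commute, `z` central.
-/

namespace B6c7ab

/-- The group `Z^3 ⋊ Z`. -/
@[ext] structure N4 where
  a : ℤ
  b : ℤ
  c : ℤ
  t : ℤ

namespace N4

instance : Mul N4 := ⟨fun g h =>
  ⟨g.a + h.a, g.b + h.b + g.t * h.a, g.c + h.c + 2 * g.t * h.b + g.t ^ 2 * h.a, g.t + h.t⟩⟩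
instance : One N4 := ⟨⟨0, 0, 0, 0⟩⟩
instance : Inv N4 := ⟨fun g => ⟨-g.a, -g.b + g.t * g.a, -g.c + 2 * g.t * g.b - g.t ^ 2 * g.a, -g.t⟩⟩

@[simp] lemma mul_a (g h : N4) : (g * h).a = g.a + h.a := rfl
@[simp] lemma mul_b (g h : N4) : (g * h).b = g.b + h.b + g.t * h.a := rfl
@[simp] lemma mul_c (g h : N4) : (g * h).c = g.c + h.c + 2 * g.t * h.b + g.t ^ 2 * h.a := rfl
@[simp] lemma mul_t (g h : N4) : (g * h).t = g.t + h.t := rfl
@[simp] lemma one_a : (1 : N4).a = 0 := rfl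
@[simp] lemma one_b : (1 : N4).b = 0 := rfl
@[simp] lemma one_c : (1 : N4).c = 0 := rfl
@[simp] lemma one_t : (1 : N4).t = 0 := rfl
@[simp] lemma inv_a (g : N4) : (g⁻¹).a = -g.a := rfl
@[simp] lemma inv_b (g : N4) : (g⁻¹).b = -g.b + g.t * g.a := rfl
@[simp] lemma inv_c (g : N4) : (g⁻¹).c = -g.c + 2 * g.t * g.b - g.t ^ 2 * g.a := rfl
@[simp] lemma inv_t (g : N4) : (g⁻¹).t = -g.t := rfl

instance : Group N4 := Group.ofLeftAxioms
  (by intro g h k; ext <;> simp <;> ring)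
  (by intro g; ext <;> simp)
  (by intro g; ext <;> simp <;> ring)

end N4

end B6c7ab
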