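import Mathlib
import Pool.Agent.Lib.MP_b6c7ab_al.Defs

/-!
# MP_b6c7ab_al: character varieties, flawed groups, amalgams
-/

namespace B6c7ab

open Matrix

/-- The representation space `Hom(Γ, GL_n(ℂ))`. -/
abbrev Rep (Γ : Type*) [Group Γ] (n : ℕ) := Γ →* GL (Fin n) ℂ

/-- The conjugation action of `GL_n(ℂ)` on `Hom(Γ, GL_n(ℂ))`. -/
def conjRep {Γ : Type*} [Group Γ] {n : ℕ} (g : GL (Fin n) ℂ) (ρ : Rep Γ n) : Rep Γ n :=
  (MulAut.conj g).toMonoidHom.comp ρ

/-- The algebra of regular functions on `Hom(Γ, GL_n(ℂ))`: it is generated by the matrix entries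
of `ρ(γ)`, `γ ∈ Γ` (the entries of `ρ(γ⁻¹)` account for the inverse of the determinant). -/
def regFun (Γ : Type*) [Group Γ] (n : ℕ) : Subalgebra ℂ (Rep Γ n → ℂ) :=
  Algebra.adjoin ℂ {f | ∃ (γ : Γ) (i j : Fin n),
    f = fun ρ => (ρ γ : Matrix (Fin n) (Fin n) ℂ) i j}

/-- The regular functions invariant under conjugation. -/
def InvFun (Γ : Type*) [Group Γ] (n : ℕ) : Set (Rep Γ n → ℂ) :=
  {f | f ∈ regFun Γ n ∧ ∀ g ρ, f (conjRep g ρ) = f ρ}

/-- Two representations are identified when all invariant regular functions agree on them. -/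
def charSetoid (Γ : Type*) [Group Γ] (n : ℕ) : Setoid (Rep Γ n) where
  r ρ σ := ∀ f ∈ InvFun Γ n, f ρ = f σ
  iseqv := ⟨fun _ _ _ => rfl, fun h f hf => (h f hf).symm, fun h k f hf => (h f hf).trans (k f hf)⟩

/-- The character variety `Hom(Γ, GL_n(ℂ)) // GL_n(ℂ)`, as a set: the points of the affine GIT
quotient. -/
def CharVar (Γ : Type*) [Group Γ] (n : ℕ) : Type _ := Quotient (charSetoid Γ n)

/-- The class of a representation. -/
def cls {Γ : Type*} [Group Γ] {n : ℕ} (ρ : Rep Γ n) : CharVar Γ n :=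
  Quotient.mk (charSetoid Γ n) ρ

/-- The evaluation of the invariant functions at a point of the character variety. -/
noncomputable def evalInv {Γ : Type*} [Group Γ] {n : ℕ} (c : CharVar Γ n) : InvFun Γ n → ℂ :=
  fun f => Quotient.lift (s := charSetoid Γ n) (fun ρ : Rep Γ n => f.1 ρ)
    (fun ρ σ h => (show ∀ f ∈ InvFun Γ n, f ρ = f σ from h) f.1 f.2) c

/-- The analytic topology: the coarsest topology for which the invariant regular functions are
continuous. -/
noncomputable instance {Γ : Type*} [Group Γ] {n : ℕ} : TopologicalSpace (CharVar Γ n) :=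
  TopologicalSpace.induced evalInv inferInstance

/-- The image of `Hom(Γ, U(n)) / U(n)` in the character variety. -/
def unitaryPart (Γ : Type*) [Group Γ] (n : ℕ) : Set (CharVar Γ n) :=
  {c | ∃ ρ : Rep Γ n, (∀ γ, (ρ γ : Matrix (Fin n) (Fin n) ℂ) ∈ Matrix.unitaryGroup (Fin n) ℂ) ∧
    cls ρ = c}

/-- `Y` is a strong deformation retract of `X`. -/
def IsSDR {X : Type*} [TopologicalSpace X] (Y : Set X) : Prop :=
  ∃ H : X × unitInterval → X, Continuous H ∧ (∀ x, H (x, 0) = x) ∧ (∀ x, H (x, 1) ∈ Y) ∧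
    ∀ y ∈ Y, ∀ t, H (y, t) = y

/-- `Γ` is `GL_n(ℂ)`-flawed. -/
def GLFlawed (Γ : Type*) [Group Γ] (n : ℕ) : Prop := IsSDR (unitaryPart Γ n)

/-- The relations of the amalgamated free product: the normal subgroup of the free product
generated by all `iA(c) iB(c)⁻¹`, `c ∈ C`. -/
def amalgamRel {A B C : Type*} [Group A] [Group B] [Group C] (iA : C →* A) (iB : C →* B) :
    Subgroup (Monoid.Coprod A B) :=
  Subgroup.normalClosure
    {w | ∃ c : C, w = Monoid.Coprod.inl (iA c) * (Monoid.Coprod.inr (iB c))⁻¹}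

instance amalgamRel_normal {A B C : Type*} [Group A] [Group B] [Group C] (iA : C →* A)
    (iB : C →* B) : (amalgamRel iA iB).Normal := Subgroup.normalClosure_normal

/-- The amalgamated free product `A *_C B`. -/
def Amalgam {A B C : Type*} [Group A] [Group B] [Group C] (iA : C →* A) (iB : C →* B) :
    Type _ :=
  Monoid.Coprod A B ⧸ amalgamRel iA iB

/-- The group structure of the amalgamated free product. -/
instance Amalgam.instGroup {A B C : Type*} [Group A] [Group B] [Group C] (iA : C →* A)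
    (iB : C →* B) : Group (Amalgam iA iB) :=
  QuotientGroup.Quotient.group (amalgamRel iA iB)

section basic

variable {Γ : Type*} [Group Γ] {n : ℕ}

lemma trace_mem (γ : Γ) :
    (fun ρ : Rep Γ n => (ρ γ : Matrix (Fin n) (Fin n) ℂ).trace) ∈ InvFun Γ n := by
  constructor
  · have : (fun ρ : Rep Γ n => (ρ γ : Matrix (Fin n) (Fin n) ℂ).trace) =
      ∑ i : Fin n, (fun ρ : Rep Γ n => (ρ γ : Matrix (Fin n) (Fin n) ℂ) i i) := by
      funext ρ
      simp [Matrix.trace]
    rw [this]
    exact Subalgebra.sum_mem _ fun i _ => Algebra.subset_adjoin ⟨γ, i, i, rfl⟩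
  · intro g ρ
    simp only [conjRep, MonoidHom.comp_apply, MulEquiv.coe_toMonoidHom, MulAut.conj_apply,
      Units.val_mul]
    rw [Matrix.trace_mul_comm, ← mul_assoc, Units.inv_mul, one_mul]

/-- The trace of `γ` on the character variety. -/
noncomputable def trC (γ : Γ) (c : CharVar Γ n) : ℂ := evalInv c ⟨_, trace_mem γ⟩

lemma trC_cls (γ : Γ) (ρ : Rep Γ n) :
    trC γ (cls ρ) = (ρ γ : Matrix (Fin n) (Fin n) ℂ).trace := rfl

lemma continuous_trC (γ : Γ) : Continuous (trC γ : CharVar Γ n → ℂ) := by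
  have h1 : Continuous (evalInv : CharVar Γ n → _) := continuous_induced_dom
  exact (continuous_apply _).comp h1

lemma exists_rep (c : CharVar Γ n) : ∃ ρ : Rep Γ n, cls ρ = c := Quotient.exists_rep c

end basic

end B6c7ab
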