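import Mathlib
import Pool.Agent.Lib.MP_b6c7ab_al.CharVar

/-!
# MP_b6c7ab_al: the group and its integral unipotent representation
-/

namespace B6c7ab

open Matrix

/-- the embedding of `ℤ²` in the first factor -/
def iA : Multiplicative ℤ × Multiplicative ℤ →* N4 where
  toFun c := ⟨0, 0, c.1.toAdd, c.2.toAdd⟩
  map_one' := rfl
  map_mul' c c' := by ext <;> simp

/-- the embedding of `ℤ²` in the second factor -/
def iB : Multiplicative ℤ × Multiplicative ℤ →* N4 where
  toFun c := ⟨c.1.toAdd, c.2.toAdd, 0, 0⟩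
  map_one' := rfl
  map_mul' c c' := by ext <;> simp

lemma iA_inj : Function.Injective iA := by
  intro c c' h
  have h1 := congrArg N4.c h
  have h2 := congrArg N4.t h
  simp only [iA, MonoidHom.coe_mk, OneHom.coe_mk] at h1 h2
  ext
  · exact h1
  · exact h2

lemma iB_inj : Function.Injective iB := by
  intro c c' h
  have h1 := congrArg N4.a h
  have h2 := congrArg N4.b h
  simp only [iB, MonoidHom.coe_mk, OneHom.coe_mk] at h1 h2
  ext
  · exact h1
  · exact h2

/-- The group `Γ = N4 *_{ℤ²} N4`. -/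
abbrev Gam : Type := Amalgam iA iB

/-- first factor inclusion -/
def jA : N4 →* Gam := (QuotientGroup.mk' (amalgamRel iA iB)).comp Monoid.Coprod.inl
/-- second factor inclusion -/
def jB : N4 →* Gam := (QuotientGroup.mk' (amalgamRel iA iB)).comp Monoid.Coprod.inr

lemma glue (c : Multiplicative ℤ × Multiplicative ℤ) : jA (iA c) = jB (iB c) := by
  show (QuotientGroup.mk (Monoid.Coprod.inl (iA c)) : Monoid.Coprod N4 N4 ⧸ amalgamRel iA iB) =
    QuotientGroup.mk (Monoid.Coprod.inr (iB c))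
  rw [QuotientGroup.eq]
  have h := Subgroup.subset_normalClosure (s := {w : Monoid.Coprod N4 N4 | ∃ c,
    w = Monoid.Coprod.inl (iA c) * (Monoid.Coprod.inr (iB c))⁻¹}) ⟨c⁻¹, rfl⟩
  simpa [amalgamRel] using h

def gx : Gam := jA ⟨0, 0, 0, 1⟩
def gy : Gam := jA ⟨1, 0, 0, 0⟩
def gd : Gam := jA ⟨0, 1, 0, 0⟩
def gz : Gam := jA ⟨0, 0, 1, 0⟩
def ge : Gam := jB ⟨0, 0, 1, 0⟩
def gv : Gam := jB ⟨0, 0, 0, 1⟩

lemma gx_eq : gx = jB ⟨0, 1, 0, 0⟩ := glue (1, Multiplicative.ofAdd 1)
lemma gz_eq : gz = jB ⟨1, 0, 0, 0⟩ := glue (Multiplicative.ofAdd 1, 1)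

lemma rel_a1 : gx * gy = gy * gd * gz * gx := by
  simp only [gx, gy, gd, gz, ← map_mul]; congr 1
lemma rel_a2 : gx * gd = gd * gz * gz * gx := by
  simp only [gx, gd, gz, ← map_mul]; congr 1
lemma rel_a3 : gy * gd = gd * gy := by
  simp only [gy, gd, ← map_mul]; congr 1
lemma rel_a4 : gy * gz = gz * gy := by
  simp only [gy, gz, ← map_mul]; congr 1
lemma rel_a5 : gd * gz = gz * gd := by
  simp only [gd, gz, ← map_mul]; congr 1
lemma rel_a6 : gx * gz = gz * gx := by
  simp only [gx, gz, ← map_mul]; congr 1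
lemma rel_b1 : gv * gz = gz * gx * ge * gv := by
  simp only [gx_eq, gz_eq, ge, gv, ← map_mul]; congr 1
lemma rel_b2 : gv * gx = gx * ge * ge * gv := by
  simp only [gx_eq, ge, gv, ← map_mul]; congr 1
lemma rel_b3 : gv * ge = ge * gv := by
  simp only [ge, gv, ← map_mul]; congr 1
lemma rel_b4 : gx * ge = ge * gx := by
  simp only [gx_eq, ge, ← map_mul]; congr 1
lemma rel_b5 : gz * ge = ge * gz := by
  simp only [gz_eq, ge, ← map_mul]; congr 1

/-- matrices of the first factor -/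
def mA : N4 →* Matrix (Fin 4) (Fin 4) ℂ where
  toFun g := !![1, (g.t : ℂ), g.b, g.c - g.t * g.b;
                0, 1, g.a, g.b - g.t * g.a;
                0, 0, 1, -g.t;
                0, 0, 0, 1]
  map_one' := by
    ext i j; fin_cases i <;> fin_cases j <;> simp
  map_mul' g h := by
    ext i j
    fin_cases i <;> fin_cases j <;>
      simp [Matrix.mul_apply, Fin.sum_univ_four] <;> ring

/-- matrices of the second factor -/
def mB : N4 →* Matrix (Fin 4) (Fin 4) ℂ where
  toFun g := !![1, (g.b : ℂ) - g.t * g.a, 0, g.a;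
                0, 1, 0, 0;
                -g.t, -g.c + g.t * g.b, 1, -g.b;
                0, -g.t, 0, 1]
  map_one' := by
    ext i j; fin_cases i <;> fin_cases j <;> simp
  map_mul' g h := by
    ext i j
    fin_cases i <;> fin_cases j <;>
      simp [Matrix.mul_apply, Fin.sum_univ_four] <;> ring

/-- The representation `ρ₀`. -/
noncomputable def rho0 : Rep Gam 4 :=
  QuotientGroup.lift (amalgamRel iA iB) (Monoid.Coprod.lift mA.toHomUnits mB.toHomUnits) (by
    have : Subgroup.normalClosure {w : Monoid.Coprod N4 N4 | ∃ c,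
        w = Monoid.Coprod.inl (iA c) * (Monoid.Coprod.inr (iB c))⁻¹} ≤
        (Monoid.Coprod.lift mA.toHomUnits mB.toHomUnits).ker := by
      apply Subgroup.normalClosure_le_normal
      rintro w ⟨c, rfl⟩
      simp only [SetLike.mem_coe, MonoidHom.mem_ker, map_mul, Monoid.Coprod.lift_apply_inl,
        map_inv, Monoid.Coprod.lift_apply_inr, mul_inv_eq_one]
      ext i j
      fin_cases i <;> fin_cases j <;> simp [iA, iB, mA, mB]
    exact this)

lemma rho0_A (g : N4) : (rho0 (jA g) : Matrix (Fin 4) (Fin 4) ℂ) = mA g := rfl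
lemma rho0_B (g : N4) : (rho0 (jB g) : Matrix (Fin 4) (Fin 4) ℂ) = mB g := rfl

lemma rho0_tr_x : (rho0 gx : Matrix (Fin 4) (Fin 4) ℂ).trace = 4 := by
  rw [gx, rho0_A]
  simp [mA, Matrix.trace, Fin.sum_univ_four]
  norm_num

lemma rho0_tr_z : (rho0 gz : Matrix (Fin 4) (Fin 4) ℂ).trace = 4 := by
  rw [gz, rho0_A]
  simp [mA, Matrix.trace, Fin.sum_univ_four]
  norm_num

/-- the word whose trace separates -/
def gphi : Gam := gd * gv * gd * gv⁻¹

lemma rho0_tr_phi : (rho0 gphi : Matrix (Fin 4) (Fin 4) ℂ).trace = 2 := by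
  have h1 : gphi = jA ⟨0, 1, 0, 0⟩ * jB ⟨0, 0, 0, 1⟩ * jA ⟨0, 1, 0, 0⟩ * jB ⟨0, 0, 0, -1⟩ := by
    simp only [gphi, gd, gv, ← map_inv]
    congr 2
  rw [h1]
  simp only [map_mul, Units.val_mul, rho0_A, rho0_B]
  simp [mA, mB, Matrix.trace, Fin.sum_univ_four, Matrix.mul_apply]
  try norm_num

end B6c7ab
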