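import Mathlib

namespace B6c7ab

/-- maximal power of a nilpotent not killing `T` -/
private lemma t1_maxpow {R : Type*} [Ring R] (N T : R) (hN : IsNilpotent N) (hT : T ≠ 0) :
    ∃ c : ℕ, N ^ c * T ≠ 0 ∧ N * (N ^ c * T) = 0 := by
  classical
  obtain ⟨n, hn⟩ := hN
  have hex : ∃ m : ℕ, N ^ m * T = 0 := ⟨n, by rw [hn, zero_mul]⟩
  have h0 : Nat.find hex ≠ 0 := by
    intro h
    have := Nat.find_spec hex
    rw [h, pow_zero, one_mul] at this
    exact hT this
  obtain ⟨c, hc⟩ := Nat.exists_eq_succ_of_ne_zero h0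
  refine ⟨c, ?_, ?_⟩
  · exact Nat.find_min hex (by omega)
  · have := Nat.find_spec hex
    rw [hc, Nat.succ_eq_add_one, pow_succ', mul_assoc] at this
    exact this

/-- common eigenvector -/
private lemma t1_common {V : Type*} [AddCommGroup V] [Module ℂ V] [FiniteDimensional ℂ V]
    [Nontrivial V] (z x e v : V →ₗ[ℂ] V)
    (hz : IsNilpotent (z - 1)) (hx : IsNilpotent (x - 1)) (he : IsNilpotent (e - 1))
    (hzx : z * x = x * z) (hze : z * e = e * z) (hxe : x * e = e * x)
    (h1 : v * z = z * x * e * v) (h2 : v * x = x * e * e * v) (h3 : v * e = e * v) :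
    ∃ (u : V) (κ : ℂ), u ≠ 0 ∧ z u = u ∧ x u = u ∧ e u = u ∧ v u = κ • u := by
  obtain ⟨a, ha, ha'⟩ := t1_maxpow (e - 1) (1 : V →ₗ[ℂ] V) he one_ne_zero
  obtain ⟨b, hb, hb'⟩ := t1_maxpow (x - 1) _ hx ha
  obtain ⟨c, hc, hc'⟩ := t1_maxpow (z - 1) _ hz hb
  have cxe : Commute (x - 1) (e - 1) :=
    ((show Commute x e from hxe).sub_left (Commute.one_left e)).sub_right
      (Commute.one_right _)
  have czx : Commute (z - 1) (x - 1) :=
    ((show Commute z x from hzx).sub_left (Commute.one_left x)).sub_right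
      (Commute.one_right _)
  have cze : Commute (z - 1) (e - 1) :=
    ((show Commute z e from hze).sub_left (Commute.one_left e)).sub_right
      (Commute.one_right _)
  have hb2 : (x - 1) * ((z - 1) ^ c * ((x - 1) ^ b * ((e - 1) ^ a * 1))) = 0 := by
    rw [← mul_assoc, (czx.symm.pow_right c).eq, mul_assoc, hb', mul_zero]
  have ha2 : (e - 1) * ((z - 1) ^ c * ((x - 1) ^ b * ((e - 1) ^ a * 1))) = 0 := by
    rw [← mul_assoc, (cze.symm.pow_right c).eq, mul_assoc, ← mul_assoc (e - 1),
      (cxe.symm.pow_right b).eq, mul_assoc, ha', mul_zero, mul_zero]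
  obtain ⟨u0, hu0⟩ : ∃ u0, ((z - 1) ^ c * ((x - 1) ^ b * ((e - 1) ^ a * 1))) u0 ≠ 0 := by
    by_contra hcon
    push Not at hcon
    exact hc (LinearMap.ext hcon)
  set T := ((z - 1) ^ c * ((x - 1) ^ b * ((e - 1) ^ a * 1))) with hT
  let K : Submodule ℂ V := LinearMap.ker (z - 1) ⊓ LinearMap.ker (x - 1) ⊓ LinearMap.ker (e - 1)
  have hmemK : ∀ u : V, u ∈ K ↔ (z u = u ∧ x u = u ∧ e u = u) := by
    intro u
    simp only [K, Submodule.mem_inf, LinearMap.mem_ker, LinearMap.sub_apply,
      Module.End.one_apply, sub_eq_zero, and_assoc]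
  have huK : T u0 ∈ K := by
    rw [hmemK]
    refine ⟨?_, ?_, ?_⟩
    · have := LinearMap.congr_fun hc' u0
      simpa [sub_eq_zero] using this
    · have := LinearMap.congr_fun hb2 u0
      simpa [sub_eq_zero] using this
    · have := LinearMap.congr_fun ha2 u0
      simpa [sub_eq_zero] using this
  have hvK : ∀ u ∈ K, v u ∈ K := by
    intro u hu
    rw [hmemK] at hu ⊢
    obtain ⟨q1, q2, q3⟩ := hu
    have e3 : e (v u) = v u := by
      have := LinearMap.congr_fun h3 u
      simp only [Module.End.mul_apply, q3] at this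
      exact this.symm
    have e2 : x (v u) = v u := by
      have := LinearMap.congr_fun h2 u
      simp only [Module.End.mul_apply, q2, e3] at this
      exact this.symm
    have e1 : z (v u) = v u := by
      have := LinearMap.congr_fun h1 u
      simp only [Module.End.mul_apply, q1, e2, e3] at this
      exact this.symm
    exact ⟨e1, e2, e3⟩
  have : Nontrivial K := ⟨⟨⟨T u0, huK⟩, 0, by
    intro h
    exact hu0 (congrArg Subtype.val h)⟩⟩
  obtain ⟨κ, hκ⟩ := Module.End.exists_eigenvalue (v.restrict hvK)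
  obtain ⟨u, hu⟩ := hκ.exists_hasEigenvector
  have hu1 := hu.apply_eq_smul
  have hu2 := hu.2
  have hk := (hmemK u.1).1 u.2
  refine ⟨u.1, κ, ?_, hk.1, hk.2.1, hk.2.2, ?_⟩
  · intro h
    exact hu2 (Subtype.ext h)
  · have := congrArg Subtype.val hu1
    simpa using this

/-- the map induced on a quotient -/
private noncomputable def t1_q {V : Type*} [AddCommGroup V] [Module ℂ V] (L : Submodule ℂ V)
    (f : V →ₗ[ℂ] V) (h : L ≤ L.comap f) : (V ⧸ L) →ₗ[ℂ] (V ⧸ L) := L.mapQ L f h

private lemma t1_q_mk {V : Type*} [AddCommGroup V] [Module ℂ V] (L : Submodule ℂ V)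
    (f : V →ₗ[ℂ] V) (h : L ≤ L.comap f) (u : V) :
    t1_q L f h (Submodule.Quotient.mk u) = Submodule.Quotient.mk (f u) := rfl

private lemma t1_q_pow {V : Type*} [AddCommGroup V] [Module ℂ V] (L : Submodule ℂ V)
    (f : V →ₗ[ℂ] V) (h : L ≤ L.comap f) (n : ℕ) (u : V) :
    ((t1_q L f h - 1) ^ n) (Submodule.Quotient.mk u) =
      Submodule.Quotient.mk (((f - 1) ^ n) u) := by
  induction n generalizing u with
  | zero => simp
  | succ n ih =>
    rw [pow_succ, pow_succ, Module.End.mul_apply, Module.End.mul_apply,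
      show (t1_q L f h - 1) (Submodule.Quotient.mk u) = Submodule.Quotient.mk ((f - 1) u) from rfl,
      ih]

private lemma t1_q_nil {V : Type*} [AddCommGroup V] [Module ℂ V] (L : Submodule ℂ V)
    (f : V →ₗ[ℂ] V) (h : L ≤ L.comap f) (hn : IsNilpotent (f - 1)) :
    IsNilpotent (t1_q L f h - 1) := by
  obtain ⟨n, hn⟩ := hn
  refine ⟨n, LinearMap.ext fun u => ?_⟩
  obtain ⟨u, rfl⟩ := Submodule.Quotient.mk_surjective L u
  rw [t1_q_pow, hn]
  rfl

private lemma t1_ext {V : Type*} [AddCommGroup V] [Module ℂ V] (L : Submodule ℂ V)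
    (f g : (V ⧸ L) →ₗ[ℂ] (V ⧸ L))
    (h : ∀ u : V, f (Submodule.Quotient.mk u) = g (Submodule.Quotient.mk u)) : f = g := by
  apply LinearMap.ext
  intro u
  obtain ⟨u, rfl⟩ := Submodule.Quotient.mk_surjective L u
  exact h u

/-- the relations pass to a quotient by an invariant subspace -/
private lemma t1_ind (k : ℕ) : ∀ {V : Type*} [AddCommGroup V] [Module ℂ V] [FiniteDimensional ℂ V]
    (_ : Module.finrank ℂ V ≤ 2 * k) (z x e v w : V →ₗ[ℂ] V)
    (_ : v * w = 1) (_ : w * v = 1)
    (_ : IsNilpotent (z - 1)) (_ : IsNilpotent (x - 1)) (_ : IsNilpotent (e - 1))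
    (_ : z * x = x * z) (_ : z * e = e * z) (_ : x * e = e * x)
    (_ : v * z = z * x * e * v) (_ : v * x = x * e * e * v) (_ : v * e = e * v),
    (x - 1) ^ k = 0 := by
  induction k with
  | zero =>
    intro V _ _ _ hk z x e v w _ _ _ _ _ _ _ _ _ _ _
    have : Module.finrank ℂ V = 0 := by omega
    have : Subsingleton V := Module.finrank_zero_iff.1 this
    exact LinearMap.ext fun u => Subsingleton.elim _ _
  | succ k ih =>
    intro V _ _ _ hk z x e v w hvw hwv hz hx he hzx hze hxe h1 h2 h3
    rcases subsingleton_or_nontrivial V with hV | hV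
    · exact LinearMap.ext fun u => Subsingleton.elim _ _
    obtain ⟨k0, κ, hk0, zk, xk, ek, vk⟩ := t1_common z x e v hz hx he hzx hze hxe h1 h2 h3
    have hvinj : ∀ u, v u = 0 → u = 0 := by
      intro u hu
      have := LinearMap.congr_fun hwv u
      simpa [hu] using this.symm
    have hκ : κ ≠ 0 := by
      intro h
      rw [h, zero_smul] at vk
      exact hk0 (hvinj k0 vk)
    have wk : w k0 = κ⁻¹ • k0 := by
      have := LinearMap.congr_fun hwv k0
      simp only [Module.End.mul_apply, vk, map_smul, Module.End.one_apply] at this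
      have h14 : w k0 = κ⁻¹ • (κ • w k0) := by rw [smul_smul, inv_mul_cancel₀ hκ, one_smul]
      rw [h14, this]
    let L : Submodule ℂ V := Submodule.span ℂ {k0}
    have hinv : ∀ (f : V →ₗ[ℂ] V) (c : ℂ), f k0 = c • k0 → L ≤ L.comap f := by
      intro f c hf
      rw [Submodule.span_singleton_le_iff_mem, Submodule.mem_comap, hf]
      exact Submodule.smul_mem _ _ (Submodule.mem_span_singleton_self k0)
    have Lz : L ≤ L.comap z := hinv z 1 (by rw [zk, one_smul])
    have Lx : L ≤ L.comap x := hinv x 1 (by rw [xk, one_smul])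
    have Le : L ≤ L.comap e := hinv e 1 (by rw [ek, one_smul])
    have Lv : L ≤ L.comap v := hinv v κ vk
    rcases subsingleton_or_nontrivial (V ⧸ L) with hQ | hQ
    · have hx1 : x - 1 = 0 := by
        apply LinearMap.ext
        intro u
        have : u ∈ L := by
          have h0 : (Submodule.Quotient.mk u : V ⧸ L) = 0 := Subsingleton.elim _ _
          exact (Submodule.Quotient.mk_eq_zero L).1 h0
        obtain ⟨c, rfl⟩ := Submodule.mem_span_singleton.1 this
        simp [xk]
      rw [hx1]
      exact zero_pow (Nat.succ_ne_zero k)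
    obtain ⟨ub, μ, hub, zb, xb, eb, vb⟩ := t1_common (t1_q L z Lz) (t1_q L x Lx) (t1_q L e Le)
      (t1_q L v Lv) (t1_q_nil L z Lz hz) (t1_q_nil L x Lx hx) (t1_q_nil L e Le he)
      (t1_ext L _ _ fun u => congrArg Submodule.Quotient.mk (LinearMap.congr_fun hzx u))
      (t1_ext L _ _ fun u => congrArg Submodule.Quotient.mk (LinearMap.congr_fun hze u))
      (t1_ext L _ _ fun u => congrArg Submodule.Quotient.mk (LinearMap.congr_fun hxe u))
      (t1_ext L _ _ fun u => congrArg Submodule.Quotient.mk (LinearMap.congr_fun h1 u))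
      (t1_ext L _ _ fun u => congrArg Submodule.Quotient.mk (LinearMap.congr_fun h2 u))
      (t1_ext L _ _ fun u => congrArg Submodule.Quotient.mk (LinearMap.congr_fun h3 u))
    obtain ⟨u0, rfl⟩ := Submodule.Quotient.mk_surjective L ub
    have hu0 : u0 ∉ L := fun h => hub ((Submodule.Quotient.mk_eq_zero L).2 h)
    have lift : ∀ (f : V →ₗ[ℂ] V) (hf : L ≤ L.comap f) (c : ℂ),
        t1_q L f hf (Submodule.Quotient.mk u0) = c • Submodule.Quotient.mk u0 →
        ∃ a : ℂ, f u0 = c • u0 + a • k0 := by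
      intro f hf c h
      rw [t1_q_mk, ← Submodule.Quotient.mk_smul, Submodule.Quotient.eq] at h
      obtain ⟨a, ha⟩ := Submodule.mem_span_singleton.1 h
      exact ⟨a, by rw [ha]; abel⟩
    obtain ⟨α, hα⟩ := lift z Lz 1 (by rw [zb, one_smul])
    obtain ⟨β, hβ⟩ := lift x Lx 1 (by rw [xb, one_smul])
    obtain ⟨γ, hγ⟩ := lift e Le 1 (by rw [eb, one_smul])
    obtain ⟨ν, hν⟩ := lift v Lv μ vb
    rw [one_smul] at hα hβ hγ
    have hμ : μ ≠ 0 := by
      intro h
      rw [h, zero_smul, zero_add] at hν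
      have h5 : v (u0 - (ν * κ⁻¹) • k0) = 0 := by
        rw [map_sub, map_smul, hν, vk, smul_smul, mul_assoc, inv_mul_cancel₀ hκ, mul_one, sub_self]
      have h6 := hvinj _ h5
      apply hu0
      rw [sub_eq_zero] at h6
      rw [h6]
      exact Submodule.smul_mem _ _ (Submodule.mem_span_singleton_self k0)
    have hcancel : ∀ a b : ℂ, a • k0 = b • k0 → a = b := fun a b h =>
      smul_left_injective ℂ hk0 h
    -- relations
    have q3 : κ * γ = μ * γ := by
      have := LinearMap.congr_fun h3 u0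
      simp only [Module.End.mul_apply, hγ, hν, map_add, map_smul, vk, ek] at this
      apply hcancel
      have h7 := sub_eq_zero.2 this
      rw [← sub_eq_zero, ← h7]
      module
    have q2 : κ * β = μ * (β + 2 * γ) := by
      have := LinearMap.congr_fun h2 u0
      simp only [Module.End.mul_apply, hγ, hν, hβ, map_add, map_smul, vk, ek, xk] at this
      apply hcancel
      have h7 := sub_eq_zero.2 this
      rw [← sub_eq_zero, ← h7]
      module
    have q1 : κ * α = μ * (α + β + γ) := by
      have := LinearMap.congr_fun h1 u0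
      simp only [Module.End.mul_apply, hγ, hν, hβ, hα, map_add, map_smul, vk, ek, xk, zk] at this
      apply hcancel
      have h7 := sub_eq_zero.2 this
      rw [← sub_eq_zero, ← h7]
      module
    have hγ0 : γ = 0 := by
      by_contra hne
      have h9 : κ = μ := mul_right_cancel₀ hne q3
      rw [h9] at q2
      have h10 := mul_left_cancel₀ hμ q2
      apply hne
      linear_combination (-1/2 : ℂ) * h10
    have hβ0 : β = 0 := by
      by_contra hne
      rw [hγ0, mul_zero, add_zero] at q2
      have h9 : κ = μ := mul_right_cancel₀ hne q2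
      rw [h9, hγ0] at q1
      have h10 := mul_left_cancel₀ hμ q1
      apply hne
      linear_combination (-1 : ℂ) * h10
    rw [hβ0, zero_smul, add_zero] at hβ
    rw [hγ0, zero_smul, add_zero] at hγ
    -- the plane
    let P : Submodule ℂ V := Submodule.span ℂ {k0, u0}
    have hk0P : k0 ∈ P := Submodule.subset_span (by simp)
    have hu0P : u0 ∈ P := Submodule.subset_span (by simp)
    have hinvP : ∀ (f : V →ₗ[ℂ] V), f k0 ∈ P → f u0 ∈ P → P ≤ P.comap f := by
      intro f hf hf'
      rw [Submodule.span_le]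
      intro y hy
      rcases hy with rfl | hy
      · exact hf
      · rw [Set.mem_singleton_iff] at hy
        rw [hy]
        exact hf'
    have Pz : P ≤ P.comap z := hinvP z (by rw [zk]; exact hk0P)
      (by rw [hα]; exact P.add_mem hu0P (P.smul_mem _ hk0P))
    have Px : P ≤ P.comap x := hinvP x (by rw [xk]; exact hk0P) (by rw [hβ]; exact hu0P)
    have Pe : P ≤ P.comap e := hinvP e (by rw [ek]; exact hk0P) (by rw [hγ]; exact hu0P)
    have Pv : P ≤ P.comap v := hinvP v (by rw [vk]; exact P.smul_mem _ hk0P)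
      (by rw [hν]; exact P.add_mem (P.smul_mem _ hu0P) (P.smul_mem _ hk0P))
    have wu : w u0 = μ⁻¹ • u0 - (μ⁻¹ * ν * κ⁻¹) • k0 := by
      have h11 := LinearMap.congr_fun hwv u0
      simp only [Module.End.mul_apply, hν, map_add, map_smul, wk, Module.End.one_apply] at h11
      rw [← sub_eq_zero]
      have h12 : μ • (w u0 - (μ⁻¹ • u0 - (μ⁻¹ * ν * κ⁻¹) • k0)) = 0 := by
        rw [smul_sub, smul_sub, smul_smul, smul_smul, mul_inv_cancel₀ hμ, one_smul,
          show μ * (μ⁻¹ * ν * κ⁻¹) = ν * κ⁻¹ by field_simp, ← smul_smul]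
        nth_rewrite 2 [← h11]
        abel
      exact (smul_eq_zero.1 h12).resolve_left hμ
    have Pw : P ≤ P.comap w := hinvP w (by rw [wk]; exact P.smul_mem _ hk0P)
      (by rw [wu]; exact P.sub_mem (P.smul_mem _ hu0P) (P.smul_mem _ hk0P))
    have hfr : Module.finrank ℂ (V ⧸ P) ≤ 2 * k := by
      have hq := Submodule.finrank_quotient_add_finrank P
      have hL1 : Module.finrank ℂ L = 1 := finrank_span_singleton hk0
      have hlt : L < P := by
        refine lt_of_le_of_ne ?_ ?_
        · rw [Submodule.span_singleton_le_iff_mem]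
          exact hk0P
        · intro h
          rw [h] at hu0
          exact hu0 hu0P
      have := Submodule.finrank_lt_finrank_of_lt hlt
      omega
    have hind := ih hfr (t1_q P z Pz) (t1_q P x Px) (t1_q P e Pe) (t1_q P v Pv) (t1_q P w Pw)
      (t1_ext P _ _ fun u => congrArg Submodule.Quotient.mk (LinearMap.congr_fun hvw u))
      (t1_ext P _ _ fun u => congrArg Submodule.Quotient.mk (LinearMap.congr_fun hwv u))
      (t1_q_nil P z Pz hz) (t1_q_nil P x Px hx) (t1_q_nil P e Pe he)
      (t1_ext P _ _ fun u => congrArg Submodule.Quotient.mk (LinearMap.congr_fun hzx u))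
      (t1_ext P _ _ fun u => congrArg Submodule.Quotient.mk (LinearMap.congr_fun hze u))
      (t1_ext P _ _ fun u => congrArg Submodule.Quotient.mk (LinearMap.congr_fun hxe u))
      (t1_ext P _ _ fun u => congrArg Submodule.Quotient.mk (LinearMap.congr_fun h1 u))
      (t1_ext P _ _ fun u => congrArg Submodule.Quotient.mk (LinearMap.congr_fun h2 u))
      (t1_ext P _ _ fun u => congrArg Submodule.Quotient.mk (LinearMap.congr_fun h3 u))
    apply LinearMap.ext
    intro u
    have hmem : ((x - 1) ^ k) u ∈ P := by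
      have h13 := t1_q_pow P x Px k u
      rw [hind] at h13
      exact (Submodule.Quotient.mk_eq_zero P).1 h13.symm
    have hxP : ∀ y ∈ P, (x - 1) y = 0 := by
      intro y hy
      obtain ⟨a, b, rfl⟩ := Submodule.mem_span_pair.1 hy
      simp [xk, hβ]
    rw [pow_succ', Module.End.mul_apply, hxP _ hmem]
    rfl

theorem flag_lemma {V : Type*} [AddCommGroup V] [Module ℂ V] [FiniteDimensional ℂ V]
    (k : ℕ) (hk : Module.finrank ℂ V ≤ 2 * k) (z x e v w : V →ₗ[ℂ] V)
    (hvw : v * w = 1) (hwv : w * v = 1)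
    (hz : IsNilpotent (z - 1)) (hx : IsNilpotent (x - 1)) (he : IsNilpotent (e - 1))
    (hzx : z * x = x * z) (hze : z * e = e * z) (hxe : x * e = e * x)
    (h1 : v * z = z * x * e * v) (h2 : v * x = x * e * e * v) (h3 : v * e = e * v) :
    (x - 1) ^ k = 0 :=
  t1_ind k hk z x e v w hvw hwv hz hx he hzx hze hxe h1 h2 h3

end B6c7ab
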