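import Mathlib

/-!
# MP_b6c7ab_al, T2: noncommutative algebra of the A side
-/

set_option linter.unusedSimpArgs false

namespace B6c7ab

theorem algA_core {R : Type*} [Ring R] (h2 : IsUnit (2 : R)) (N M q : R)
    (hN : N * N = 0) (hM : M * M = 0) (hqN : q * N = N * q) (hqM : q * M = M * q)
    (hq : IsNilpotent (q - 1)) (h : (1 + N) * (1 + M) = q * ((1 + M) * (1 + N)))
    (h' : ((1 + M) * (1 - N) * (1 + M) - 1) * ((1 + M) * (1 - N) * (1 + M) - 1) = 0) :
    N * M + M * N = 0 := by
  have hN' : ∀ t, N * (N * t) = 0 := fun t => by rw [← mul_assoc, hN, zero_mul]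
  have hM' : ∀ t, M * (M * t) = 0 := fun t => by rw [← mul_assoc, hM, zero_mul]
  have hC : N * M - M * N = (q - 1) * ((1 + M) * (1 + N)) := by
    have e1 : (q - 1) * ((1 + M) * (1 + N)) = (1 + N) * (1 + M) - (1 + M) * (1 + N) := by
      rw [h]; noncomm_ring
    rw [e1]; noncomm_ring
  have cq : Commute (q - 1) ((1 + M) * (1 + N)) := by
    have c1 : Commute (q - 1) (1 + M) :=
      Commute.sub_left (Commute.add_right (Commute.one_right _) hqM) (Commute.one_left _)
    have c2 : Commute (q - 1) (1 + N) :=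
      Commute.sub_left (Commute.add_right (Commute.one_right _) hqN) (Commute.one_left _)
    exact c1.mul_right c2
  have nC : IsNilpotent (N * M - M * N) := by
    rw [hC]; exact cq.isNilpotent_mul_right hq
  have hSC : (N * M + M * N) ^ 2 = (N * M - M * N) ^ 2 := by
    simp only [pow_two, mul_add, add_mul, mul_sub, sub_mul, mul_assoc, hN', hM', hN, hM, mul_zero]
    abel
  have nS : IsNilpotent (N * M + M * N) := by
    obtain ⟨k, hk⟩ := nC
    refine ⟨2 * k, ?_⟩
    rw [pow_mul, hSC, ← pow_mul, mul_comm, pow_mul, hk]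
    simp
  set S := N * M + M * N with hS
  have cSN : S * N = N * S := by
    rw [hS]
    simp only [mul_add, add_mul, mul_assoc, hN', hM', hN, hM, mul_zero]
    abel
  have cSM : S * M = M * S := by
    rw [hS]
    simp only [mul_add, add_mul, mul_assoc, hN', hM', hN, hM, mul_zero]
    abel
  have e2 : (1 + M) * (1 - N) * (1 + M) - 1 = 2 * M - S * M - N - S := by
    rw [hS]
    simp only [mul_add, add_mul, mul_sub, sub_mul, mul_assoc, hN', hM', hN, hM, mul_zero,
      one_mul, mul_one, two_mul]
    abel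
  have e3 : (2 * M - S * M - N - S) * (2 * M - S * M - N - S)
      = 2 * (S * (S * (1 + M) + (N - 2 * M)) - S) := by
    have hMN : M * N = S - N * M := by rw [hS]; abel
    have cSM' : ∀ t, M * (S * t) = S * (M * t) := fun t => by
      rw [← mul_assoc, ← cSM, mul_assoc]
    have cSN' : ∀ t, N * (S * t) = S * (N * t) := fun t => by
      rw [← mul_assoc, ← cSN, mul_assoc]
    have cSM0 : M * S = S * M := cSM.symm
    have cSN0 : N * S = S * N := cSN.symm
    simp only [mul_add, add_mul, mul_sub, sub_mul, mul_assoc, hN', hM', hN, hM, mul_zero,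
      one_mul, mul_one, two_mul, hMN, cSM', cSN', cSM0, cSN0]
    abel
  have e4 : S = S * (S * (1 + M) + (N - 2 * M)) := by
    have h5 : (2 : R) * (S * (S * (1 + M) + (N - 2 * M)) - S) = 0 := by
      rw [← e3, ← e2]; exact h'
    have h6 := (h2.mul_right_eq_zero).1 h5
    exact (sub_eq_zero.1 h6).symm
  have e5 : S * (N - 2 * M) = S * (S * ((1 + M) * (N - 2 * M) - 2)) := by
    have h7 : (N - 2 * M) * (N - 2 * M) = - (2 * S) := by
      rw [hS]
      simp only [mul_add, add_mul, mul_sub, sub_mul, mul_assoc, hN', hM', hN, hM, mul_zero,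
        one_mul, mul_one, two_mul]
      abel
    calc S * (N - 2 * M) = (S * (S * (1 + M) + (N - 2 * M))) * (N - 2 * M) := by rw [← e4]
      _ = S * (S * ((1 + M) * (N - 2 * M)) + (N - 2 * M) * (N - 2 * M)) := by noncomm_ring
      _ = S * (S * ((1 + M) * (N - 2 * M) - 2)) := by rw [h7]; noncomm_ring
  have e6 : S = S * (S * ((1 + M) + ((1 + M) * (N - 2 * M) - 2))) := by
    calc S = S * (S * (1 + M)) + S * (N - 2 * M) := by
          rw [← mul_add]; exact e4
      _ = _ := by rw [e5]; noncomm_ring
  have cc : Commute S ((1 + M) + ((1 + M) * (N - 2 * M) - 2)) := by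
    have c1 : Commute S (1 + M) := Commute.add_right (Commute.one_right _) cSM
    have c2 : Commute S (2 : R) := Commute.ofNat_right S 2
    have c3 : Commute S (N - 2 * M) := Commute.sub_right cSN (c2.mul_right cSM)
    exact Commute.add_right c1 (Commute.sub_right (c1.mul_right c3) c2)
  have nn : IsNilpotent (S * ((1 + M) + ((1 + M) * (N - 2 * M) - 2))) :=
    cc.isNilpotent_mul_right nS
  obtain ⟨k, hk⟩ := nn
  have hpow : ∀ j : ℕ, S = S * (S * ((1 + M) + ((1 + M) * (N - 2 * M) - 2))) ^ j := by
    intro j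
    induction j with
    | zero => simp
    | succ j ih =>
      rw [pow_succ', ← mul_assoc, ← e6]
      exact ih
  have := hpow k
  rw [hk, mul_zero] at this
  exact this

theorem algA_ring {R : Type*} [Ring R] (h2 : IsUnit (2 : R)) (x y d z yi : R)
    (hy : y * yi = 1) (hy' : yi * y = 1)
    (hN : (x - 1) * (x - 1) = 0) (hz : IsNilpotent (z - 1))
    (r1 : x * y = y * d * z * x) (r2 : x * d = d * z * z * x)
    (r3 : y * d = d * y) (r4 : y * z = z * y) (r5 : d * z = z * d) (r6 : x * z = z * x) :
    (d - 1) * (d - 1) = 0 ∧ (x - 1) * (d - 1) = z - 1 ∧ (d - 1) * (x - 1) = -(z - 1) := by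
  obtain ⟨N, rfl⟩ : ∃ N, x = 1 + N := ⟨x - 1, by abel⟩
  have hNN : N * N = 0 := by simpa using hN
  -- the conjugate
  set M := yi * N * y with hMdef
  have hMM : M * M = 0 := by
    calc M * M = yi * N * (y * yi) * N * y := by rw [hMdef]; noncomm_ring
      _ = yi * (N * N) * y := by rw [hy]; noncomm_ring
      _ = 0 := by rw [hNN]; simp
  set L := yi * M * y with hLdef
  have hLL : L * L = 0 := by
    calc L * L = yi * M * (y * yi) * M * y := by rw [hLdef]; noncomm_ring
      _ = yi * (M * M) * y := by rw [hy]; noncomm_ring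
      _ = 0 := by rw [hMM]; simp
  have cz : z * yi = yi * z := by
    calc z * yi = (yi * y) * z * yi := by rw [hy', one_mul]
      _ = yi * (y * z) * yi := by noncomm_ring
      _ = yi * z * (y * yi) := by rw [r4]; noncomm_ring
      _ = yi * z := by rw [hy, mul_one]
  have czN : z * N = N * z := by
    have : (1 + N) * z - z = z * (1 + N) - z := by rw [r6]
    have e1 : (1 + N) * z - z = N * z := by noncomm_ring
    have e2 : z * (1 + N) - z = z * N := by noncomm_ring
    rw [← e1, ← e2, this]
  have czM : z * M = M * z := by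
    calc z * M = (z * yi) * N * y := by rw [hMdef]; noncomm_ring
      _ = yi * (z * N) * y := by rw [cz]; noncomm_ring
      _ = yi * N * (z * y) := by rw [czN]; noncomm_ring
      _ = yi * N * y * z := by rw [← r4]; noncomm_ring
  have a1 : 1 + M = d * z * (1 + N) := by
    calc 1 + M = yi * y + yi * N * y := by rw [hy', hMdef]
      _ = yi * ((1 + N) * y) := by noncomm_ring
      _ = (yi * y) * (d * z * (1 + N)) := by rw [r1]; noncomm_ring
      _ = d * z * (1 + N) := by rw [hy', one_mul]
  have a2 : (1 + N) * (1 + M) = (z * z) * ((1 + M) * (1 + N)) := by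
    calc (1 + N) * (1 + M) = ((1 + N) * d) * z * (1 + N) := by rw [a1]; noncomm_ring
      _ = (d * z) * z * ((1 + N) * z) * (1 + N) := by rw [r2]; noncomm_ring
      _ = ((d * z) * z) * z * (1 + N) * (1 + N) := by rw [r6]; noncomm_ring
      _ = (z * (z * d)) * z * (1 + N) * (1 + N) := by
          rw [r5, mul_assoc z d z, r5]
      _ = (z * z) * ((1 + M) * (1 + N)) := by rw [a1]; noncomm_ring
  have a3 : d * z = (1 + M) * (1 - N) := by
    calc d * z = d * z * (1 - N * N) := by rw [hNN]; simp
      _ = (d * z * (1 + N)) * (1 - N) := by noncomm_ring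
      _ = (1 + M) * (1 - N) := by rw [← a1]
  have a4 : (1 + L) * (1 - M) = (1 + M) * (1 - N) := by
    calc (1 + L) * (1 - M) = (yi * y + yi * M * y) * (yi * y - yi * N * y) := by
          rw [hy', hLdef, hMdef]
      _ = yi * ((1 + M) * (y * yi) * (1 - N)) * y := by noncomm_ring
      _ = yi * ((1 + M) * (1 - N)) * y := by rw [hy, mul_one]
      _ = yi * (d * (z * y)) := by rw [← a3]; noncomm_ring
      _ = yi * ((d * y) * z) := by rw [← r4]; noncomm_ring
      _ = (yi * y) * (d * z) := by rw [← r3]; noncomm_ring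
      _ = (1 + M) * (1 - N) := by rw [hy', one_mul, a3]
  have a5 : L = (1 + M) * (1 - N) * (1 + M) - 1 := by
    rw [← a4]
    have : (1 + L) * (1 - M) * (1 + M) - 1 = L - (1 + L) * (M * M) := by noncomm_ring
    rw [this, hMM]; simp
  have nq : IsNilpotent (z * z - 1) := by
    have e1 : z * z - 1 = (z - 1) * (z + 1) := by noncomm_ring
    have c1 : Commute (z - 1) (z + 1) := by
      show (z - 1) * (z + 1) = (z + 1) * (z - 1)
      noncomm_ring
    rw [e1]; exact c1.isNilpotent_mul_right hz
  have cqN : (z * z) * N = N * (z * z) := by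
    rw [mul_assoc, czN, ← mul_assoc, czN, mul_assoc]
  have cqM : (z * z) * M = M * (z * z) := by
    rw [mul_assoc, czM, ← mul_assoc, czM, mul_assoc]
  have hS : N * M + M * N = 0 := by
    refine algA_core h2 N M (z * z) hNN hMM cqN cqM nq a2 ?_
    rw [← a5]; exact hLL
  have hMN : M * N = -(N * M) := by
    rw [eq_neg_iff_add_eq_zero, add_comm]; exact hS
  have hN' : ∀ t, N * (N * t) = 0 := fun t => by rw [← mul_assoc, hNN, zero_mul]
  have hM' : ∀ t, M * (M * t) = 0 := fun t => by rw [← mul_assoc, hMM, zero_mul]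
  have hMN' : ∀ t, M * (N * t) = -(N * (M * t)) := fun t => by
    rw [← mul_assoc, hMN, neg_mul, mul_assoc]
  -- (*) 2NM = (q-1)(1+N+M-NM)
  have b1 : 2 * (N * M) = (z * z - 1) * (1 + N + M - N * M) := by
    have e1 : (z * z - 1) * (1 + N + M - N * M)
        = (z * z) * (1 + N + M + M * N) - (1 + N + M + M * N) := by
      rw [hMN]; noncomm_ring
    have e2 : (1 + N + M + M * N) = (1 + M) * (1 + N) := by noncomm_ring
    rw [e1]
    nth_rewrite 1 [e2]
    rw [← a2, hMN]; noncomm_ring
  have b2 : (z * z - 1) * N = 0 := by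
    have e1 : (z * z - 1) * (N * (1 + M)) = 0 := by
      calc (z * z - 1) * (N * (1 + M))
          = (z * z - 1) * (N * (1 + N + M - N * M)) := by
            simp only [mul_add, mul_sub, hN', hNN, mul_one]; abel
        _ = N * ((z * z - 1) * (1 + N + M - N * M)) := by
            rw [← mul_assoc, ← mul_assoc, sub_mul, cqN]; noncomm_ring
        _ = N * (2 * (N * M)) := by rw [← b1]
        _ = 0 := by rw [two_mul, mul_add, hN', add_zero]
    calc (z * z - 1) * N = (z * z - 1) * (N * (1 + M)) * (1 - M)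
          + (z * z - 1) * N * (M * M) := by noncomm_ring
      _ = 0 := by rw [e1, hMM]; simp
  have b3 : z * z - 1 = 2 * (N * M) := by
    have e3 : (z * z - 1) * M = 0 := by
      calc (z * z - 1) * M = (z * z - 1) * (1 + N + M - N * M) * M
            - ((z * z - 1) * N) * M - (z * z - 1) * (M * M)
              + ((z * z - 1) * N) * (M * M) := by noncomm_ring
        _ = 0 := by
            rw [b2, hMM, ← b1]
            simp only [two_mul, add_mul, mul_assoc, hMM, mul_zero, zero_mul, sub_zero, add_zero]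
    calc z * z - 1 = (z * z - 1) * (1 + N + M - N * M) - (z * z - 1) * N - (z * z - 1) * M
          + ((z * z - 1) * N) * M := by noncomm_ring
      _ = 2 * (N * M) := by rw [b2, e3, ← b1]; simp
  obtain ⟨P, rfl⟩ : ∃ P, z = 1 + P := ⟨z - 1, by abel⟩
  have nP : IsNilpotent P := by simpa using hz
  have b4 : P * (2 + P) = 2 * (N * M) := by
    rw [← b3]; noncomm_ring
  have hu : IsUnit (2 + P) :=
    nP.isUnit_add_left_of_commute h2 (Commute.ofNat_right P 2)
  have cP : Commute P (2 + P) := Commute.add_right (Commute.ofNat_right P 2) (Commute.refl P)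
  have b5 : P * P = 0 := by
    have e1 : P * P * ((2 + P) * (2 + P)) = 0 := by
      calc P * P * ((2 + P) * (2 + P)) = P * (P * (2 + P)) * (2 + P) := by noncomm_ring
        _ = P * ((2 + P) * P) * (2 + P) := by rw [cP.eq]
        _ = (P * (2 + P)) * (P * (2 + P)) := by noncomm_ring
        _ = 0 := by
          rw [b4]
          simp only [two_mul, mul_add, add_mul, mul_assoc, hMN', hN', hM', mul_neg, mul_zero,
            neg_zero, add_zero, hMM]
    exact ((hu.mul hu).mul_left_eq_zero).1 e1
  have b6 : P = N * M := by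
    have e1 : (2 : R) * P = 2 * (N * M) := by
      rw [← b4, mul_add, b5, add_zero, two_mul, mul_two]
    have e2 : (2 : R) * (P - N * M) = 0 := by rw [mul_sub, e1, sub_self]
    exact sub_eq_zero.1 ((h2.mul_right_eq_zero).1 e2)
  have b7 : d = 1 + M - N := by
    have e1 : d * (1 + P) * (1 - P) = d := by
      calc d * (1 + P) * (1 - P) = d - d * (P * P) := by noncomm_ring
        _ = d := by rw [b5]; simp
    rw [← e1, a3, b6]
    simp only [mul_add, add_mul, mul_sub, sub_mul, mul_assoc, hMN', hN', hM', hMN, hNN, hMM,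
      mul_neg, neg_mul, mul_zero, neg_zero, add_zero, one_mul, mul_one]
    abel
  rw [b7]
  refine ⟨?_, ?_, ?_⟩
  · simp only [mul_add, add_mul, mul_sub, sub_mul, mul_assoc, hMN', hN', hM', hMN, hNN, hMM,
      mul_neg, neg_mul, mul_zero, neg_zero, add_zero, one_mul, mul_one]
    abel
  · rw [b6]
    simp only [mul_add, add_mul, mul_sub, sub_mul, mul_assoc, hMN', hN', hM', hMN, hNN, hMM,
      mul_neg, neg_mul, mul_zero, neg_zero, add_zero, one_mul, mul_one]
    abel
  · rw [b6]
    simp only [mul_add, add_mul, mul_sub, sub_mul, mul_assoc, hMN', hN', hM', hMN, hNN, hMM,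
      mul_neg, neg_mul, mul_zero, neg_zero, add_zero, one_mul, mul_one]
    abel

/-- T2 (algebra of the A side) -/
theorem algA (x y d z yi : Matrix (Fin 4) (Fin 4) ℂ) (hy : y * yi = 1) (hy' : yi * y = 1)
    (hN : (x - 1) * (x - 1) = 0) (hz : IsNilpotent (z - 1))
    (r1 : x * y = y * d * z * x) (r2 : x * d = d * z * z * x)
    (r3 : y * d = d * y) (r4 : y * z = z * y) (r5 : d * z = z * d) (r6 : x * z = z * x) :
    (d - 1) * (d - 1) = 0 ∧ (x - 1) * (d - 1) = z - 1 ∧ (d - 1) * (x - 1) = -(z - 1) := by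
  have h2 : IsUnit (2 : Matrix (Fin 4) (Fin 4) ℂ) := by
    have h : IsUnit (algebraMap ℂ (Matrix (Fin 4) (Fin 4) ℂ) 2) :=
      (IsUnit.mk0 (2 : ℂ) two_ne_zero).map (algebraMap ℂ (Matrix (Fin 4) (Fin 4) ℂ))
    have e : algebraMap ℂ (Matrix (Fin 4) (Fin 4) ℂ) 2 = 2 := map_ofNat _ 2
    rw [e] at h
    exact h
  exact algA_ring h2 x y d z yi hy hy' hN hz r1 r2 r3 r4 r5 r6

end B6c7ab
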