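import Mathlib

namespace B6c7ab

open Matrix

/-- T3 (algebra of the B side) -/
theorem algB (x z e v vi D : Matrix (Fin 4) (Fin 4) ℂ) (hv : v * vi = 1) (hv' : vi * v = 1)
    (hN : (x - 1) * (x - 1) = 0) (hD : D * D = 0) (hP : (x - 1) * D = z - 1)
    (hP' : D * (x - 1) = -(z - 1)) (he : IsNilpotent (e - 1))
    (r1 : v * z = z * x * e * v) (r2 : v * x = x * e * e * v) (r3 : v * e = e * v)
    (r4 : x * e = e * x) (r5 : z * e = e * z) :
    (x - 1) * (e - 1) = 0 ∧ (e - 1) * (x - 1) = 0 ∧ (e - 1) * (e - 1) = 0 ∧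
    (z - 1) * (e - 1) = 0 ∧ (e - 1) * (z - 1) = 0 ∧
    v * (x - 1) = ((x - 1) + 2 * (e - 1)) * v ∧
    v * (z - 1) = ((z - 1) + (x - 1) + (e - 1)) * v ∧ v * (e - 1) = (e - 1) * v := by
  obtain ⟨N, rfl⟩ : ∃ N, x = 1 + N := ⟨x - 1, by abel⟩
  obtain ⟨P, rfl⟩ : ∃ P, z = 1 + P := ⟨z - 1, by abel⟩
  obtain ⟨M, rfl⟩ : ∃ M, e = 1 + M := ⟨e - 1, by abel⟩
  simp only [add_sub_cancel_left] at hN hP hP' he ⊢
  have hNM : N * M = M * N := by
    have h : N * M - M * N = (1 + N) * (1 + M) - (1 + M) * (1 + N) := by noncomm_ring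
    rw [r4, sub_self] at h
    exact sub_eq_zero.1 h
  have hPM : P * M = M * P := by
    have h : P * M - M * P = (1 + P) * (1 + M) - (1 + M) * (1 + P) := by noncomm_ring
    rw [r5, sub_self] at h
    exact sub_eq_zero.1 h
  have hvM : v * M = M * v := by
    have h : v * M - M * v = v * (1 + M) - (1 + M) * v := by noncomm_ring
    rw [r3, sub_self] at h
    exact sub_eq_zero.1 h
  have hNP : N * P = 0 := by rw [← hP, ← mul_assoc, hN, zero_mul]
  have hPN : P * N = 0 := by
    rw [← hP, mul_assoc, hP', mul_neg, hNP, neg_zero]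
  have hPP : P * P = 0 := by
    have : P * P = (N * D) * P := by rw [hP]
    rw [this, mul_assoc]
    have h2 : D * P = -(P * D) := by
      have h3 : D * P = (D * N) * D := by rw [mul_assoc, hP]
      rw [h3, hP', neg_mul]
    rw [h2, mul_neg, ← mul_assoc, hNP, zero_mul, neg_zero]
  -- cancellation of v on the right
  have cancel : ∀ X : Matrix (Fin 4) (Fin 4) ℂ, X * v = 0 → X = 0 := by
    intro X hX
    calc X = X * (v * vi) := by rw [hv, mul_one]
      _ = 0 := by rw [← mul_assoc, hX, zero_mul]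
  have conj : ∀ X Y : Matrix (Fin 4) (Fin 4) ℂ, v * X = Y * v → X * X = 0 → Y * Y = 0 := by
    intro X Y h hX
    apply cancel
    rw [mul_assoc, ← h, ← mul_assoc, ← h, mul_assoc, hX, mul_zero]
  -- the two conjugates of N
  have c1 : v * N = ((1 + N) * (1 + M) * (1 + M) - 1) * v := by
    have h : v * N = v * (1 + N) - v := by noncomm_ring
    rw [h, r2]
    noncomm_ring
  have c2 : v * ((1 + N) * (1 + M) * (1 + M) - 1) =
      ((1 + N) * (1 + M) * (1 + M) * (1 + M) * (1 + M) - 1) * v := by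
    have h : v * ((1 + N) * (1 + M) * (1 + M) - 1) = (v * (1 + N)) * (1 + M) * (1 + M) - v := by
      noncomm_ring
    rw [h, r2]
    have h2 : (1 + N) * (1 + M) * (1 + M) * v * (1 + M) * (1 + M) =
        (1 + N) * (1 + M) * (1 + M) * (v * (1 + M)) * (1 + M) := by noncomm_ring
    rw [h2, r3]
    have h3 : (1 + N) * (1 + M) * (1 + M) * ((1 + M) * v) * (1 + M) =
        (1 + N) * (1 + M) * (1 + M) * (1 + M) * (v * (1 + M)) := by noncomm_ring
    rw [h3, r3]
    noncomm_ring
  have e1 := conj _ _ c1 hN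
  have e2 := conj _ _ c2 e1
  -- M2
  set M2 := 2 • M + M * M with hM2
  have hMM2 : M * M2 = M2 * M := by rw [hM2]; noncomm_ring
  have cNM : Commute N M := hNM
  have cNM2 : Commute N M2 := by
    rw [hM2]
    exact (cNM.smul_right 2).add_right (cNM.mul_right cNM)
  have hNM2 : N * M2 = M2 * N := cNM2
  have f1 : (1 + N) * (1 + M) * (1 + M) - 1 = N + M2 + N * M2 := by rw [hM2]; noncomm_ring
  have f2 : (1 + N) * (1 + M) * (1 + M) * (1 + M) * (1 + M) - 1 =
      N + (2 • M2 + M2 * M2) + N * (2 • M2 + M2 * M2) := by rw [hM2]; noncomm_ring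
  rw [f1] at e1
  rw [f2] at e2
  -- general expansion for an element K commuting with N
  have expand : ∀ K : Matrix (Fin 4) (Fin 4) ℂ, N * K = K * N →
      (N + K + N * K) * (N + K + N * K) = K * K + 2 • (N * K) + 2 • (N * K * K) := by
    intro K hK
    have h1 : (N + K + N * K) * (N + K + N * K) =
        N * N + N * K + N * N * K + K * N + K * K + (K * N) * K + N * (K * N) + N * K * K
          + N * (K * N) * K := by noncomm_ring
    rw [h1, ← hK, hN]
    have h2 : N * (N * K) = 0 := by rw [← mul_assoc, hN, zero_mul]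
    rw [h2]
    noncomm_ring
  have g1 := expand M2 hNM2
  rw [e1] at g1
  have hNM4 : N * (2 • M2 + M2 * M2) = (2 • M2 + M2 * M2) * N :=
    (cNM2.smul_right 2).add_right (cNM2.mul_right cNM2)
  have g2 := expand _ hNM4
  rw [e2] at g2
  -- N M2^2 = 0
  have a1 : N * M2 * M2 = 0 := by
    have h : N * (M2 * M2 + 2 • (N * M2) + 2 • (N * M2 * M2)) = 0 := by rw [← g1, mul_zero]
    have h2 : N * (M2 * M2 + 2 • (N * M2) + 2 • (N * M2 * M2)) =
        N * M2 * M2 + 2 • ((N * N) * M2) + 2 • ((N * N) * M2 * M2) := by noncomm_ring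
    rw [h2, hN] at h
    simpa using h
  have a2 : M2 * M2 = -(2 • (N * M2)) := by
    rw [a1] at g1
    have : M2 * M2 + 2 • (N * M2) = 0 := by simpa using g1.symm
    exact eq_neg_of_add_eq_zero_left this
  have a3 : M2 * M2 * M2 = 0 := by
    rw [a2, neg_mul, smul_mul_assoc, a1]; simp
  have a4 : M2 * M2 * M2 * M2 = 0 := by rw [a3, zero_mul]
  have g3 : (0 : Matrix (Fin 4) (Fin 4) ℂ) = 4 • (M2 * M2) + 4 • (N * M2) := by
    have h : (2 • M2 + M2 * M2) * (2 • M2 + M2 * M2) + 2 • (N * (2 • M2 + M2 * M2)) +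
        2 • (N * (2 • M2 + M2 * M2) * (2 • M2 + M2 * M2)) =
        4 • (M2 * M2) + 4 • (N * M2) + (4 • (M2 * M2 * M2) + M2 * M2 * M2 * M2)
         + (2 • (N * M2 * M2) + 8 • (N * M2 * M2) + 8 • (N * M2 * M2 * M2)
          + 2 • (N * M2 * M2 * M2 * M2)) := by
      clear_value M2
      noncomm_ring
    rw [g2, h, a1, a4, a3]
    simp
  have a5 : N * M2 = 0 := by
    rw [a2] at g3
    generalize N * M2 = K at g3 ⊢
    have h3 : (4 : ℂ) • K = 0 := by
      have h5 : (0 : Matrix (Fin 4) (Fin 4) ℂ) = (-4 : ℂ) • K := by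
        rw [g3]
        module
      have h6 : (4 : ℂ) • K = -((-4 : ℂ) • K) := by rw [neg_smul, neg_neg]
      rw [h6, ← h5, neg_zero]
    exact (smul_eq_zero.1 h3).resolve_left (by norm_num)
  have a6 : M2 * M2 = 0 := by rw [a2, a5]; simp
  -- 2 + M is a unit
  have hunit : IsUnit (2 + M) := by
    have h2 : IsUnit (2 : Matrix (Fin 4) (Fin 4) ℂ) := by
      refine ⟨⟨2, (2⁻¹ : ℂ) • 1, ?_, ?_⟩, rfl⟩
      · rw [mul_smul_comm, mul_one]
        have : (2 : Matrix (Fin 4) (Fin 4) ℂ) = (2 : ℂ) • 1 := by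
          rw [two_smul]; norm_num
        rw [this, smul_smul]; norm_num
      · rw [smul_mul_assoc, one_mul]
        have : (2 : Matrix (Fin 4) (Fin 4) ℂ) = (2 : ℂ) • 1 := by
          rw [two_smul]; norm_num
        rw [this, smul_smul]; norm_num
    exact he.isUnit_add_left_of_commute h2 (Commute.ofNat_right M 2)
  have hM2' : M2 = M * (2 + M) := by rw [hM2]; noncomm_ring
  have b1 : N * M = 0 := by
    have h : (N * M) * (2 + M) = 0 := by rw [mul_assoc, ← hM2', a5]
    exact hunit.mul_left_eq_zero.1 h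
  have b2 : M * M = 0 := by
    have h : (M * M) * (2 + M) * (2 + M) = 0 := by
      have : (M * M) * (2 + M) * (2 + M) = (M * (2 + M)) * (M * (2 + M)) := by noncomm_ring
      rw [this, ← hM2', a6]
    exact hunit.mul_left_eq_zero.1 (hunit.mul_left_eq_zero.1 h)
  have b3 : M2 = 2 • M := by rw [hM2, b2, add_zero]
  have b4 : M * N = 0 := by rw [← hNM, b1]
  -- the conjugate of P
  have c3 : v * P = (P + N + M + P * M) * v := by
    have h : v * P = v * (1 + P) - v := by noncomm_ring
    rw [h, r1]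
    have h2 : (1 + P) * (1 + N) * (1 + M) * v - v =
        (P + N + M + P * M + P * N + N * M + P * (N * M)) * v := by noncomm_ring
    rw [h2, hPN, b1]
    simp
  have e3 := conj _ _ c3 hPP
  have b5 : P * M = 0 := by
    have h : (P + N + M + P * M) * (P + N + M + P * M) =
        P * P + P * N + P * M + (P * P) * M + N * P + N * N + N * M + (N * P) * M
        + M * P + M * N + M * M + (M * P) * M + P * (M * P) + P * (M * N) + P * (M * M)
        + P * (M * P) * M := by noncomm_ring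
    rw [h, ← hPM, hPP, hPN, hNP, hN, b1, b4, b2] at e3
    have h2 : P * (P * M) = 0 := by rw [← mul_assoc, hPP, zero_mul]
    have h3 : P * M * M = 0 := by rw [mul_assoc, b2, mul_zero]
    rw [h2, h3] at e3
    have h4 : (2 : ℂ) • (P * M) = 0 := by
      rw [two_smul]
      simpa using e3
    exact (smul_eq_zero.1 h4).resolve_left (by norm_num)
  refine ⟨b1, b4, b2, b5, by rw [← hPM, b5], ?_, ?_, hvM⟩
  · rw [c1, f1, a5, b3, add_zero]
    congr 2
    rw [two_smul, two_mul]
  · rw [c3, b5, add_zero]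

end B6c7ab
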