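import Mathlib

namespace B6c7ab

open Matrix

/-- trace of a square-zero 2x2 matrix -/
theorem t4_trace_sq_zero (m : Matrix (Fin 2) (Fin 2) ℂ) (h : m * m = 0) : m.trace = 0 := by
  have : IsNilpotent m := ⟨2, by rw [sq, h]⟩
  exact (Matrix.isNilpotent_trace_of_isNilpotent this).eq_zero

/-- Cayley-Hamilton for 2x2 matrices -/
theorem t4_ch (m : Matrix (Fin 2) (Fin 2) ℂ) : m * m = m.trace • m - m.det • 1 := by
  ext i j
  fin_cases i <;> fin_cases j <;>
    simp [Matrix.mul_apply, Matrix.trace, Matrix.det_fin_two, Fin.sum_univ_two] <;> ring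

theorem t4_trace_sq (m : Matrix (Fin 2) (Fin 2) ℂ) : (m * m).trace = m.trace ^ 2 - 2 * m.det := by
  simp [Matrix.mul_apply, Matrix.trace, Matrix.det_fin_two, Fin.sum_univ_two]
  ring

theorem t4_det (e : Matrix (Fin 2) (Fin 2) ℂ) : (1 + (2 : ℂ) • e).det = 1 + 2 * e.trace + 4 * e.det := by
  simp [Matrix.trace, Matrix.det_fin_two, Fin.sum_univ_two]
  ring

/-- the 2x2 core: eps is square-zero -/
theorem t4_eps (e u u' : Matrix (Fin 2) (Fin 2) ℂ) (hu : u * u' = 1)
    (h : (1 + (2 : ℂ) • e) * u * e = e * u) (hq : (1 + (2 : ℂ) • e).det ≠ 0) : e * e = 0 := by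
  have hdu : u.det ≠ 0 := by
    intro h0
    have := congrArg Matrix.det hu
    rw [Matrix.det_mul, h0, zero_mul, Matrix.det_one] at this
    exact zero_ne_one this
  have hu' : u' * u = 1 := mul_eq_one_comm.1 hu
  -- determinant
  have hdet : e.det * ((1 + (2 : ℂ) • e).det - 1) = 0 := by
    have := congrArg Matrix.det h
    rw [Matrix.det_mul, Matrix.det_mul, Matrix.det_mul] at this
    have h2 : u.det * (e.det * ((1 + (2 : ℂ) • e).det - 1)) = 0 := by linear_combination this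
    exact (mul_eq_zero.1 h2).resolve_left hdu
  -- trace: (1+2e) (u e u') = e
  have h1 : (1 + (2 : ℂ) • e) * (u * e * u') = e := by
    have : (1 + (2 : ℂ) • e) * (u * e * u') = ((1 + (2 : ℂ) • e) * u * e) * u' := by noncomm_ring
    rw [this, h, mul_assoc, hu, mul_one]
  set f := u * e * u' with hf
  have hft : f.trace = e.trace := by
    rw [hf, Matrix.trace_mul_comm, ← mul_assoc, hu', one_mul]
  -- adjugate of 1+2e is (1 + 2 tr e) - 2 e
  have hadj : ((1 + 2 * e.trace) • (1 : Matrix (Fin 2) (Fin 2) ℂ) - (2 : ℂ) • e) * (1 + (2 : ℂ) • e) =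
      (1 + (2 : ℂ) • e).det • (1 : Matrix (Fin 2) (Fin 2) ℂ) := by
    ext i j
    fin_cases i <;> fin_cases j <;>
      simp [Matrix.mul_apply, Matrix.trace, Matrix.det_fin_two, Fin.sum_univ_two] <;> ring
  have h3 : (1 + (2 : ℂ) • e).det • f = ((1 + 2 * e.trace) • (1 : Matrix (Fin 2) (Fin 2) ℂ) - (2 : ℂ) • e) * e := by
    have := congrArg (fun X => ((1 + 2 * e.trace) • (1 : Matrix (Fin 2) (Fin 2) ℂ) -
      (2 : ℂ) • e) * X) h1
    rw [← mul_assoc, hadj, smul_mul_assoc, one_mul] at this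
    exact this
  have h4 := congrArg Matrix.trace h3
  rw [Matrix.trace_smul, hft, sub_mul, smul_mul_assoc, one_mul, Matrix.trace_sub,
    Matrix.trace_smul, smul_mul_assoc, Matrix.trace_smul, t4_trace_sq] at h4
  simp only [smul_eq_mul] at h4
  rw [t4_det] at h4 hdet hq
  have hd : e.det = 0 ∧ e.trace = 0 := by
    rcases mul_eq_zero.1 hdet with h0 | h0
    · refine ⟨h0, ?_⟩
      rw [h0] at h4
      have : e.trace ^ 2 = 0 := by linear_combination h4 / 2
      exact pow_eq_zero_iff (by norm_num) |>.1 this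
    · have h5 : e.det = 0 := by
        have h6 : (1 + 2 * e.trace + 4 * e.det) = 1 := by linear_combination h0
        rw [h6] at h4
        linear_combination -h4 / 4
      refine ⟨h5, ?_⟩
      rw [h5] at h0
      linear_combination h0 / 2
  rw [t4_ch, hd.1, hd.2]
  simp

/-- the 2x2 computation -/
theorem t4_core (m e a u w1 w2 : Matrix (Fin 2) (Fin 2) ℂ) (hmm : m * m = 0)
    (ha : a = (1 + (2 : ℂ) • e) * u) (hu : u * w2 = 1) (haw : a * w1 = 1)
    (h8 : a * e = e * u) (h7 : a * m = (m + 1 + e) * u) :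
    (m * a * m * w1).trace + (m * u * m * w2).trace = -2 := by
  have hq : (1 + (2 : ℂ) • e).det ≠ 0 := by
    intro h0
    have := congrArg Matrix.det haw
    rw [ha, Matrix.det_mul, Matrix.det_mul, h0, zero_mul, zero_mul, Matrix.det_one] at this
    exact zero_ne_one this
  have hee : e * e = 0 := t4_eps e u w2 hu (by rw [← ha, h8]) hq
  have hu' : w2 * u = 1 := mul_eq_one_comm.1 hu
  have hinv : (1 - (2 : ℂ) • e) * (1 + (2 : ℂ) • e) = 1 := by
    have : (1 - (2 : ℂ) • e) * (1 + (2 : ℂ) • e) = 1 - (4 : ℂ) • (e * e) := by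
      simp only [sub_mul, mul_add, one_mul, mul_one, smul_mul_assoc, mul_smul_comm, smul_smul]
      module
    rw [this, hee, smul_zero, sub_zero]
  have hua : u = (1 - (2 : ℂ) • e) * a := by rw [ha, ← mul_assoc, hinv, one_mul]
  have huw1 : u * w1 = 1 - (2 : ℂ) • e := by
    rw [hua, mul_assoc, haw, mul_one]
  have hum : u * m = (1 - (2 : ℂ) • e) * (m + 1 + e) * u := by
    calc u * m = (1 - (2 : ℂ) • e) * (a * m) := by rw [← mul_assoc, ← hua]
      _ = _ := by rw [h7, mul_assoc]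
  have te : e.trace = 0 := t4_trace_sq_zero e hee
  have tm : m.trace = 0 := t4_trace_sq_zero m hmm
  have hX : (1 - (2 : ℂ) • e) * (m + 1 + e) = m + 1 - e - (2 : ℂ) • (e * m) := by
    have : (1 - (2 : ℂ) • e) * (m + 1 + e) =
        m + 1 - e - (2 : ℂ) • (e * m) - (2 : ℂ) • (e * e) := by
      simp only [sub_mul, mul_add, one_mul, mul_one, smul_mul_assoc]
      module
    rw [this, hee, smul_zero, sub_zero]
  have hY : (m + 1 + e) * (1 - (2 : ℂ) • e) = m + 1 - e - (2 : ℂ) • (m * e) := by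
    have : (m + 1 + e) * (1 - (2 : ℂ) • e) =
        m + 1 - e - (2 : ℂ) • (m * e) - (2 : ℂ) • (e * e) := by
      simp only [add_mul, mul_sub, one_mul, mul_one, mul_smul_comm]
      module
    rw [this, hee, smul_zero, sub_zero]
  have t1 : (e * m).trace = 1 := by
    have h1 : (u * m * w2).trace = 0 := by
      rw [mul_assoc, Matrix.trace_mul_comm, mul_assoc, hu', mul_one, tm]
    rw [hum, mul_assoc, hu, mul_one, hX] at h1
    simp only [Matrix.trace_sub, Matrix.trace_add, Matrix.trace_smul, te, tm, Matrix.trace_one,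
      Fintype.card_fin, smul_eq_mul] at h1
    push_cast at h1
    linear_combination -h1 / 2
  have t2 : (m * e).trace = 1 := by rw [Matrix.trace_mul_comm, t1]
  have t3 : (m * (e * m)).trace = 0 := by
    rw [Matrix.trace_mul_comm, mul_assoc, hmm, mul_zero, Matrix.trace_zero]
  have e1 : m * a * m * w1 = m - m * e := by
    have : m * a * m * w1 = m * (a * m) * w1 := by rw [mul_assoc m a m]
    rw [this, h7, ← mul_assoc, mul_assoc _ u w1, huw1, mul_assoc, hY]
    simp only [mul_sub, mul_add, mul_one, mul_smul_comm, ← mul_assoc, hmm, zero_mul, smul_zero]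
    simp
  have e2 : m * u * m * w2 = m - m * e - (2 : ℂ) • (m * (e * m)) := by
    have : m * u * m * w2 = m * (u * m) * w2 := by rw [mul_assoc m u m]
    rw [this, hum, hX, ← mul_assoc, mul_assoc _ u w2, hu, mul_one]
    simp only [mul_sub, mul_add, mul_one, mul_smul_comm, hmm]
    simp
  rw [e1, e2]
  simp only [Matrix.trace_sub, Matrix.trace_smul, tm, t2, t3, smul_eq_mul]
  norm_num

theorem t4_blocks (A : Matrix (Fin 2 ⊕ Fin 2) (Fin 2 ⊕ Fin 2) ℂ) :
    ∃ a b c d, A = fromBlocks a b c d :=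
  ⟨_, _, _, _, (fromBlocks_toBlocks A).symm⟩

/-- T4 (block computation) -/
theorem block_trace (M P D v w : Matrix (Fin 2 ⊕ Fin 2) (Fin 2 ⊕ Fin 2) ℂ)
    (N : Matrix (Fin 2 ⊕ Fin 2) (Fin 2 ⊕ Fin 2) ℂ) (hNdef : N = fromBlocks 0 1 0 0)
    (hv : v * w = 1) (hv' : w * v = 1)
    (h1 : N * M = 0) (h2 : M * N = 0) (h3 : D * D = 0) (h4 : N * D = P) (h5 : D * N = -P)
    (h6 : v * N = (N + 2 * M) * v) (h7 : v * P = (P + N + M) * v) (h8 : v * M = M * v) :
    (D * v * D * w).trace = -2 := by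
  obtain ⟨M1, M2, M3, M4, rfl⟩ := t4_blocks M
  obtain ⟨P1, P2, P3, P4, rfl⟩ := t4_blocks P
  obtain ⟨D1, D2, D3, D4, rfl⟩ := t4_blocks D
  obtain ⟨v1, v2, v3, v4, rfl⟩ := t4_blocks v
  obtain ⟨w1, w2, w3, w4, rfl⟩ := t4_blocks w
  subst hNdef
  have hz : (0 : Matrix (Fin 2 ⊕ Fin 2) (Fin 2 ⊕ Fin 2) ℂ) = fromBlocks 0 0 0 0 :=
    fromBlocks_zero.symm
  rw [two_mul] at h6
  rw [← fromBlocks_one] at hv
  rw [hz] at h1 h2 h3
  simp only [fromBlocks_multiply, fromBlocks_add, fromBlocks_neg, fromBlocks_inj, zero_mul,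
    mul_zero, one_mul, mul_one, zero_add, add_zero] at h1 h2 h3 h4 h5 h6 h7 h8 hv ⊢
  obtain ⟨hM3, hM4, -, -⟩ := h1
  obtain ⟨-, hM1, -, -⟩ := h2
  subst hM3 hM4 hM1
  obtain ⟨hD3, hD4, hP3, hP4⟩ := h4
  subst hD3 hD4 hP3 hP4
  obtain ⟨hD3, hD1, -, -⟩ := h5
  have hD3' : D3 = 0 := neg_eq_zero.1 hD3.symm
  subst hD3' hD1
  obtain ⟨-, -, -, hmm⟩ := h3
  obtain ⟨-, h61, -, h62⟩ := h6
  subst h62
  obtain ⟨-, h71, -, -⟩ := h7
  obtain ⟨-, h81, -, -⟩ := h8
  obtain ⟨hv1, -, hv3, hv4⟩ := hv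
  simp only [zero_mul, mul_zero, zero_add, add_zero] at *
  have hw4 : w4 * v4 = 1 := mul_eq_one_comm.1 hv4
  have hw3 : w3 = 0 := by
    calc w3 = (w4 * v4) * w3 := by rw [hw4, one_mul]
      _ = 0 := by rw [mul_assoc, hv3, mul_zero]
  subst hw3
  rw [mul_zero, add_zero] at hv1
  have key := t4_core D4 M2 v1 v4 w1 w4 hmm (by rw [h61, two_smul, add_mul, add_mul, one_mul]) hv4
    hv1 h81 (by rw [h71])
  have htr : ∀ a b c d : Matrix (Fin 2) (Fin 2) ℂ,
      (fromBlocks a b c d).trace = a.trace + d.trace := by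
    intro a b c d
    simp [Matrix.trace, Fintype.sum_sum_type]
  rw [htr, ← key]
  simp

end B6c7ab
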