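import Mathlib
import Pool.Agent.Lib.MP_b6c7ab_al.T4

namespace B6c7ab

open Matrix

/-- the statement of T4, as a proposition -/
private def T5Block : Prop := ∀ (M P D v w : Matrix (Fin 2 ⊕ Fin 2) (Fin 2 ⊕ Fin 2) ℂ)
    (N : Matrix (Fin 2 ⊕ Fin 2) (Fin 2 ⊕ Fin 2) ℂ) (_ : N = fromBlocks 0 1 0 0)
    (_ : v * w = 1) (_ : w * v = 1)
    (_ : N * M = 0) (_ : M * N = 0) (_ : D * D = 0) (_ : N * D = P) (_ : D * N = -P)
    (_ : v * N = (N + 2 * M) * v) (_ : v * P = (P + N + M) * v) (_ : v * M = M * v),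
    (D * v * D * w).trace = -2

/-- there are two vectors whose images under `N` are linearly independent -/
private lemma t5_pair {n : Type*} [Fintype n] [DecidableEq n]
    (N M P D v w : Matrix n n ℂ) (hN0 : N ≠ 0)
    (hv : v * w = 1)
    (h3 : D * D = 0) (h4 : N * D = P) (h5 : D * N = -P)
    (h6 : v * N = (N + 2 * M) * v) (h7 : v * P = (P + N + M) * v) (h8 : v * M = M * v) :
    ∃ ab : Fin 2 → (n → ℂ), ∀ c : Fin 2 → ℂ,
      c 0 • (N *ᵥ ab 0) + c 1 • (N *ᵥ ab 1) = 0 → c = 0 := by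
  classical
  -- `N` has a nonzero value
  obtain ⟨a, ha⟩ : ∃ a, N *ᵥ a ≠ 0 := by
    by_contra hcon
    push Not at hcon
    apply hN0
    apply Matrix.toLin'.injective
    apply LinearMap.ext
    intro a
    rw [Matrix.toLin'_apply, hcon]
    simp
  by_contra hcon
  push Not at hcon
  -- every value is a multiple of `N a`
  have hφ : ∀ b, ∃ t : ℂ, N *ᵥ b = t • (N *ᵥ a) := by
    intro b
    obtain ⟨c, hc, hc0⟩ := hcon ![a, b]
    simp only [Matrix.cons_val_zero, Matrix.cons_val_one] at hc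
    have hc1 : c 1 ≠ 0 := by
      intro h
      rw [h, zero_smul, add_zero] at hc
      have := (smul_eq_zero.1 hc).resolve_right ha
      apply hc0
      funext i
      fin_cases i
      · exact this
      · exact h
    refine ⟨-(c 1)⁻¹ * c 0, ?_⟩
    have h9 : (c 1)⁻¹ • (c 0 • (N *ᵥ a) + c 1 • (N *ᵥ b)) = 0 := by rw [hc, smul_zero]
    rw [smul_add, smul_smul, smul_smul, inv_mul_cancel₀ hc1, one_smul] at h9
    rw [← sub_eq_zero, ← h9]
    module
  obtain ⟨s, hs⟩ := hφ (D *ᵥ a)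
  have hDp : D *ᵥ (N *ᵥ a) = -(s • (N *ᵥ a)) := by
    rw [← hs, Matrix.mulVec_mulVec, h5, Matrix.mulVec_mulVec, h4, Matrix.neg_mulVec]
  have hs2 : s * s = 0 := by
    have h10 : D *ᵥ (D *ᵥ (N *ᵥ a)) = 0 := by
      rw [Matrix.mulVec_mulVec, h3, Matrix.zero_mulVec]
    rw [hDp, Matrix.mulVec_neg, Matrix.mulVec_smul, hDp, smul_neg, neg_neg, smul_smul] at h10
    exact (smul_eq_zero.1 h10).resolve_right ha
  have hs0 : s = 0 := by simpa using hs2
  rw [hs0, zero_smul, neg_zero] at hDp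
  have hP : P = 0 := by
    apply Matrix.toLin'.injective
    apply LinearMap.ext
    intro b
    rw [Matrix.toLin'_apply, map_zero, LinearMap.zero_apply]
    have h11 : P *ᵥ b = -(D *ᵥ (N *ᵥ b)) := by
      rw [Matrix.mulVec_mulVec, h5, Matrix.neg_mulVec, neg_neg]
    obtain ⟨t, ht⟩ := hφ b
    rw [h11, ht, Matrix.mulVec_smul, hDp, smul_zero, neg_zero]
  rw [hP, mul_zero, zero_add] at h7
  have hNM : N + M = 0 := by
    have : (N + M) * v * w = 0 := by rw [← h7, zero_mul]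
    rwa [mul_assoc, hv, mul_one] at this
  have hM : M = -N := by rw [eq_neg_iff_add_eq_zero, add_comm]; exact hNM
  rw [hM] at h6 h8
  have h12 : v * N = N * v := by
    rw [mul_neg, neg_mul] at h8
    exact neg_injective h8
  have h13 : (2 : Matrix n n ℂ) * (N * v) = 0 := by
    rw [h12] at h6
    have : N * v - (N + 2 * -N) * v = 0 := sub_eq_zero.2 h6
    rw [← this]
    noncomm_ring
  have h14 : N * v = 0 := by
    have h15 : (2 : ℂ) • (N * v) = 0 := by
      rw [← h13, two_mul, two_smul]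
    exact (smul_eq_zero.1 h15).resolve_left two_ne_zero
  apply hN0
  have : N * v * w = 0 := by rw [h14, zero_mul]
  rwa [mul_assoc, hv, mul_one] at this

private lemma t5_sum (hT4 : T5Block) (N M P D v w : Matrix (Fin 2 ⊕ Fin 2) (Fin 2 ⊕ Fin 2) ℂ)
    (hN0 : N ≠ 0)
    (hv : v * w = 1) (hv' : w * v = 1) (hN : N * N = 0)
    (h1 : N * M = 0) (h2 : M * N = 0) (h3 : D * D = 0) (h4 : N * D = P) (h5 : D * N = -P)
    (h6 : v * N = (N + 2 * M) * v) (h7 : v * P = (P + N + M) * v) (h8 : v * M = M * v) :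
    (D * v * D * w).trace = -2 := by
  obtain ⟨ab, hab⟩ := t5_pair N M P D v w hN0 hv h3 h4 h5 h6 h7 h8
  let S : Matrix (Fin 2 ⊕ Fin 2) (Fin 2 ⊕ Fin 2) ℂ :=
    Matrix.of fun i j => Sum.elim (fun k => (N *ᵥ (ab k)) i) (fun k => ab k i) j
  have hNS : N * S = S * fromBlocks 0 1 0 0 := by
    ext i j
    rcases j with k | k
    · have h20 : (N * S) i (Sum.inl k) = (N *ᵥ (N *ᵥ ab k)) i := rfl
      rw [h20, Matrix.mulVec_mulVec, hN, Matrix.zero_mulVec, Matrix.mul_apply]
      rw [Fintype.sum_sum_type]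
      simp
    · have h20 : (N * S) i (Sum.inr k) = (N *ᵥ ab k) i := rfl
      rw [h20, Matrix.mul_apply, Fintype.sum_sum_type]
      simp [S, Matrix.one_apply]
  have hSu : IsUnit S := by
    rw [← Matrix.linearIndependent_cols_iff_isUnit, Fintype.linearIndependent_iff]
    intro g hg
    have hg1 : g (Sum.inl 0) • (N *ᵥ ab 0) + g (Sum.inl 1) • (N *ᵥ ab 1)
        + (g (Sum.inr 0) • ab 0 + g (Sum.inr 1) • ab 1) = 0 := by
      rw [Fintype.sum_sum_type, Fin.sum_univ_two, Fin.sum_univ_two] at hg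
      exact hg
    have hg2 : g (Sum.inr 0) • (N *ᵥ ab 0) + g (Sum.inr 1) • (N *ᵥ ab 1) = 0 := by
      have h21 := congrArg (fun u => N *ᵥ u) hg1
      simp only [Matrix.mulVec_add, Matrix.mulVec_smul, Matrix.mulVec_mulVec, hN,
        Matrix.zero_mulVec, smul_zero, zero_add, Matrix.mulVec_zero] at h21
      exact h21
    have hg3 := hab (fun k => g (Sum.inr k)) hg2
    have h30 : g (Sum.inr 0) = 0 := congrFun hg3 0
    have h31 : g (Sum.inr 1) = 0 := congrFun hg3 1
    rw [h30, h31, zero_smul, zero_smul, add_zero, add_zero] at hg1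
    have hg4 := hab (fun k => g (Sum.inl k)) hg1
    have h32 : g (Sum.inl 0) = 0 := congrFun hg4 0
    have h33 : g (Sum.inl 1) = 0 := congrFun hg4 1
    rintro (i | i) <;> fin_cases i <;> assumption
  obtain ⟨T, hST, hTS⟩ : ∃ T, S * T = 1 ∧ T * S = 1 := by
    obtain ⟨u, hu⟩ := hSu
    exact ⟨(u⁻¹ : (Matrix (Fin 2 ⊕ Fin 2) (Fin 2 ⊕ Fin 2) ℂ)ˣ).1, by rw [← hu]; exact u.mul_inv,
      by rw [← hu]; exact u.inv_mul⟩
  -- conjugation
  let cj : Matrix (Fin 2 ⊕ Fin 2) (Fin 2 ⊕ Fin 2) ℂ → Matrix (Fin 2 ⊕ Fin 2) (Fin 2 ⊕ Fin 2) ℂ :=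
    fun X => T * X * S
  have cmul : ∀ X Y, cj X * cj Y = cj (X * Y) := by
    intro X Y
    calc T * X * S * (T * Y * S) = T * X * (S * T) * Y * S := by noncomm_ring
      _ = T * (X * Y) * S := by rw [hST]; noncomm_ring
  have cadd : ∀ X Y, cj X + cj Y = cj (X + Y) := by
    intro X Y
    simp only [cj]
    noncomm_ring
  have czero : cj 0 = 0 := by simp [cj]
  have cone : cj 1 = 1 := by simp only [cj, mul_one, hTS]
  have cneg : ∀ X, -cj X = cj (-X) := by
    intro X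
    simp only [cj]
    noncomm_ring
  have hNc : cj N = fromBlocks 0 1 0 0 := by
    simp only [cj]
    rw [mul_assoc, hNS, ← mul_assoc, hTS, one_mul]
  have c2 : ∀ X, 2 * cj X = cj (2 * X) := by
    intro X
    simp only [cj]
    noncomm_ring
  have key := hT4 (cj M) (cj P) (cj D) (cj v) (cj w) (cj N) hNc
    (by rw [cmul, hv, cone]) (by rw [cmul, hv', cone]) (by rw [cmul, h1, czero])
    (by rw [cmul, h2, czero]) (by rw [cmul, h3, czero]) (by rw [cmul, h4])
    (by rw [cmul, h5, cneg]) (by rw [cmul, h6, c2, cadd, cmul])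
    (by rw [cmul, h7, cadd, cadd, cmul]) (by rw [cmul, h8, cmul])
  rw [cmul, cmul, cmul] at key
  rw [← key]
  simp only [cj]
  rw [Matrix.trace_mul_comm (T * (D * v * D * w)) S, ← mul_assoc S, hST, one_mul]

private theorem t5_main (hT4 : T5Block) (N M P D v w : Matrix (Fin 4) (Fin 4) ℂ) (hN0 : N ≠ 0)
    (hv : v * w = 1) (hv' : w * v = 1) (hN : N * N = 0)
    (h1 : N * M = 0) (h2 : M * N = 0) (h3 : D * D = 0) (h4 : N * D = P) (h5 : D * N = -P)
    (h6 : v * N = (N + 2 * M) * v) (h7 : v * P = (P + N + M) * v) (h8 : v * M = M * v) :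
    (D * v * D * w).trace = -2 := by
  let ε : Fin 4 ≃ Fin 2 ⊕ Fin 2 := (finSumFinEquiv (m := 2) (n := 2)).symm
  let F := Matrix.reindexAlgEquiv ℂ ℂ ε
  have key := t5_sum hT4 (F N) (F M) (F P) (F D) (F v) (F w)
    (by
      intro h
      exact hN0 ((map_eq_zero_iff F F.injective).1 h))
    (by rw [← map_mul, hv, map_one]) (by rw [← map_mul, hv', map_one])
    (by rw [← map_mul, hN, map_zero]) (by rw [← map_mul, h1, map_zero])
    (by rw [← map_mul, h2, map_zero]) (by rw [← map_mul, h3, map_zero])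
    (by rw [← map_mul, h4]) (by rw [← map_mul, h5, map_neg])
    (by rw [← map_mul, h6, map_mul, map_add, map_mul, map_ofNat])
    (by rw [← map_mul, h7, map_mul, map_add, map_add])
    (by rw [← map_mul, h8, map_mul])
  rw [← map_mul, ← map_mul, ← map_mul] at key
  rw [← key]
  exact (Equiv.sum_comp ε.symm (fun i => (D * v * D * w) i i)).symm

theorem trace_main (N M P D v w : Matrix (Fin 4) (Fin 4) ℂ) (hN0 : N ≠ 0)
    (hv : v * w = 1) (hv' : w * v = 1) (hN : N * N = 0)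
    (h1 : N * M = 0) (h2 : M * N = 0) (h3 : D * D = 0) (h4 : N * D = P) (h5 : D * N = -P)
    (h6 : v * N = (N + 2 * M) * v) (h7 : v * P = (P + N + M) * v) (h8 : v * M = M * v) :
    (D * v * D * w).trace = -2 :=
  t5_main block_trace N M P D v w hN0 hv hv' hN h1 h2 h3 h4 h5 h6 h7 h8

end B6c7ab
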