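import Mathlib

namespace B6c7ab

open Matrix

/-- abstract determinant lemma -/
lemma T6_eig_pow {V : Type*} [AddCommGroup V] [Module ℂ V] [FiniteDimensional ℂ V]
    (hdim : Module.finrank ℂ V ≤ 4) (X D Z : V →ₗ[ℂ] V)
    (hX : Function.Injective X) (hD : Function.Injective D)
    (hXZ : X ∘ₗ Z = Z ∘ₗ X) (hDZ : D ∘ₗ Z = Z ∘ₗ D)
    (hr : X ∘ₗ D = D ∘ₗ Z ∘ₗ Z ∘ₗ X) (lam : ℂ) (u : V) (hu : u ≠ 0) (hZu : Z u = lam • u) :
    lam ^ 24 = 1 := by
  classical
  let W : Submodule ℂ V := LinearMap.ker (Z - lam • LinearMap.id)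
  have memW : ∀ w, w ∈ W ↔ Z w = lam • w := by
    intro w
    simp only [W, LinearMap.mem_ker, LinearMap.sub_apply, LinearMap.smul_apply,
      LinearMap.id_apply, sub_eq_zero]
  have hXW : ∀ w ∈ W, X w ∈ W := by
    intro w hw
    rw [memW] at hw ⊢
    have := LinearMap.congr_fun hXZ w
    simp only [LinearMap.comp_apply] at this
    rw [← this, hw, map_smul]
  have hDW : ∀ w ∈ W, D w ∈ W := by
    intro w hw
    rw [memW] at hw ⊢
    have := LinearMap.congr_fun hDZ w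
    simp only [LinearMap.comp_apply] at this
    rw [← this, hw, map_smul]
  let X' : W →ₗ[ℂ] W := X.restrict hXW
  let D' : W →ₗ[ℂ] W := D.restrict hDW
  have hX' : Function.Injective X' := by
    intro a b hab
    have : (X' a : V) = X' b := by rw [hab]
    apply Subtype.ext
    apply hX
    simpa [X'] using this
  have hD' : Function.Injective D' := by
    intro a b hab
    have : (D' a : V) = D' b := by rw [hab]
    apply Subtype.ext
    apply hD
    simpa [D'] using this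
  have hdX : LinearMap.det X' ≠ 0 := by
    intro h0
    have := LinearMap.bot_lt_ker_of_det_eq_zero h0
    rw [LinearMap.ker_eq_bot.mpr hX'] at this
    exact lt_irrefl _ this
  have hdD : LinearMap.det D' ≠ 0 := by
    intro h0
    have := LinearMap.bot_lt_ker_of_det_eq_zero h0
    rw [LinearMap.ker_eq_bot.mpr hD'] at this
    exact lt_irrefl _ this
  have hrel : X' ∘ₗ D' = (lam ^ 2) • (D' ∘ₗ X') := by
    apply LinearMap.ext
    intro w
    apply Subtype.ext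
    have h1 := LinearMap.congr_fun hr (w : V)
    simp only [LinearMap.comp_apply] at h1
    have hw := (memW _).1 (hXW w w.2)
    rw [hw, map_smul, hw, map_smul, map_smul] at h1
    simp only [X', D', LinearMap.comp_apply, LinearMap.restrict_apply, LinearMap.smul_apply,
      Submodule.coe_smul]
    rw [h1, smul_smul, pow_two]
  have hdet : LinearMap.det (X' ∘ₗ D') = LinearMap.det ((lam ^ 2) • (D' ∘ₗ X')) := by
    rw [hrel]
  rw [LinearMap.det_smul, LinearMap.det_comp, LinearMap.det_comp, mul_comm (LinearMap.det X')]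
    at hdet
  have hne : LinearMap.det D' * LinearMap.det X' ≠ 0 := mul_ne_zero hdD hdX
  have h2 : (lam ^ 2) ^ Module.finrank ℂ W = 1 := by
    have : ((lam ^ 2) ^ Module.finrank ℂ W - 1) * (LinearMap.det D' * LinearMap.det X') = 0 := by
      rw [sub_mul, one_mul, ← hdet, sub_self]
    rcases mul_eq_zero.1 this with h | h
    · exact sub_eq_zero.1 h
    · exact absurd h hne
  have hW1 : 0 < Module.finrank ℂ W := by
    haveI : Nontrivial W := ⟨⟨u, (memW u).2 hZu⟩, 0, fun h => hu (congrArg Subtype.val h)⟩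
    exact Module.finrank_pos
  have hW4 : Module.finrank ℂ W ≤ 4 := (Submodule.finrank_le W).trans hdim
  generalize Module.finrank ℂ W = m at h2 hW1 hW4
  interval_cases m
  · calc lam ^ 24 = ((lam ^ 2) ^ 1) ^ 12 := by ring
      _ = 1 := by rw [h2]; simp
  · calc lam ^ 24 = ((lam ^ 2) ^ 2) ^ 6 := by ring
      _ = 1 := by rw [h2]; simp
  · calc lam ^ 24 = ((lam ^ 2) ^ 3) ^ 4 := by ring
      _ = 1 := by rw [h2]; simp
  · calc lam ^ 24 = ((lam ^ 2) ^ 4) ^ 3 := by ring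
      _ = 1 := by rw [h2]; simp

/-- matrix version -/
lemma T6_mat (X D Z : GL (Fin 4) ℂ) (hXZ : X * Z = Z * X) (hDZ : D * Z = Z * D)
    (hr : X * D = D * Z * Z * X) (lam : ℂ) (u : Fin 4 → ℂ) (hu : u ≠ 0)
    (hZu : (Z : Matrix (Fin 4) (Fin 4) ℂ) *ᵥ u = lam • u) : lam ^ 24 = 1 := by
  have hinj : ∀ G : GL (Fin 4) ℂ, Function.Injective (Matrix.toLin' (G : Matrix (Fin 4) (Fin 4) ℂ)) := by
    intro G a b hab
    rw [Matrix.toLin'_apply, Matrix.toLin'_apply] at hab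
    have h1 : ((G⁻¹ : GL (Fin 4) ℂ) : Matrix (Fin 4) (Fin 4) ℂ) *ᵥ
        ((G : Matrix (Fin 4) (Fin 4) ℂ) *ᵥ a) = ((G⁻¹ : GL (Fin 4) ℂ) : Matrix (Fin 4) (Fin 4) ℂ) *ᵥ
        ((G : Matrix (Fin 4) (Fin 4) ℂ) *ᵥ b) := by rw [hab]
    rw [Matrix.mulVec_mulVec, Matrix.mulVec_mulVec, ← Units.val_mul, inv_mul_cancel, Units.val_one,
      Matrix.one_mulVec, Matrix.one_mulVec] at h1
    exact h1
  have c1 : ∀ A B C E : GL (Fin 4) ℂ, A * B = C * E →
      (Matrix.toLin' (A : Matrix (Fin 4) (Fin 4) ℂ)) ∘ₗ Matrix.toLin' (B : Matrix (Fin 4) (Fin 4) ℂ)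
      = (Matrix.toLin' (C : Matrix (Fin 4) (Fin 4) ℂ)) ∘ₗ
        Matrix.toLin' (E : Matrix (Fin 4) (Fin 4) ℂ) := by
    intro A B C E h
    rw [← Matrix.toLin'_mul, ← Matrix.toLin'_mul, ← Units.val_mul, ← Units.val_mul, h]
  refine T6_eig_pow (V := Fin 4 → ℂ) (by simp) (Matrix.toLin' (X : Matrix (Fin 4) (Fin 4) ℂ))
    (Matrix.toLin' (D : Matrix (Fin 4) (Fin 4) ℂ)) (Matrix.toLin' (Z : Matrix (Fin 4) (Fin 4) ℂ))
    (hinj X) (hinj D) (c1 _ _ _ _ hXZ) (c1 _ _ _ _ hDZ) ?_ lam u hu ?_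
  · rw [← Matrix.toLin'_mul, ← Matrix.toLin'_mul, ← Matrix.toLin'_mul, ← Matrix.toLin'_mul,
      ← Units.val_mul, ← Units.val_mul, ← Units.val_mul, ← Units.val_mul, hr]
    simp only [mul_assoc]
  · rw [Matrix.toLin'_apply]; exact hZu

/-- T6 (eigenvalues) -/
theorem eig_root (x y d z v e : GL (Fin 4) ℂ)
    (r1 : x * y = y * d * z * x) (r2 : x * d = d * z * z * x)
    (r3 : y * z = z * y) (r4 : d * z = z * d) (r5 : x * z = z * x)
    (s1 : v * z = z * x * e * v) (s2 : v * x = x * e * e * v) (s3 : v * e = e * v)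
    (s4 : x * e = e * x) (s5 : z * e = e * z) :
    (∀ ξ ∈ (z : Matrix (Fin 4) (Fin 4) ℂ).charpoly.roots, ξ ^ 24 = 1) ∧
    (∀ ξ ∈ (x : Matrix (Fin 4) (Fin 4) ℂ).charpoly.roots, ξ ^ 24 = 1) := by
  have _ := r1
  have _ := r3
  have hroot : ∀ (M : Matrix (Fin 4) (Fin 4) ℂ) (ξ : ℂ), ξ ∈ M.charpoly.roots →
      ∃ u : Fin 4 → ℂ, u ≠ 0 ∧ M *ᵥ u = ξ • u := by
    intro M ξ h
    have h0 : M.charpoly.eval ξ = 0 := (Polynomial.mem_roots'.1 h).2
    rw [Matrix.eval_charpoly] at h0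
    obtain ⟨u, hu, h1⟩ := Matrix.exists_mulVec_eq_zero_iff.2 h0
    refine ⟨u, hu, ?_⟩
    rw [Matrix.sub_mulVec, sub_eq_zero] at h1
    rw [← h1]
    simp [Matrix.scalar_apply, ← Matrix.smul_one_eq_diagonal, Matrix.smul_mulVec]
  have hz : ∀ (lam : ℂ) (u : Fin 4 → ℂ), u ≠ 0 →
      (z : Matrix (Fin 4) (Fin 4) ℂ) *ᵥ u = lam • u → lam ^ 24 = 1 :=
    fun lam u hu h => T6_mat x d z r5 r4 r2 lam u hu h
  have he : ∀ (lam : ℂ) (u : Fin 4 → ℂ), u ≠ 0 →
      (e : Matrix (Fin 4) (Fin 4) ℂ) *ᵥ u = lam • u → lam ^ 24 = 1 :=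
    fun lam u hu h => T6_mat v x e s3 s4 s2 lam u hu h
  refine ⟨fun ξ h => ?_, fun ξ h => ?_⟩
  · obtain ⟨u, hu, h1⟩ := hroot _ _ h
    exact hz ξ u hu h1
  · obtain ⟨u, hu, h1⟩ := hroot _ _ h
    -- joint eigenvector
    let V := Fin 4 → ℂ
    let Lx : V →ₗ[ℂ] V := Matrix.toLin' (x : Matrix (Fin 4) (Fin 4) ℂ)
    let Lz : V →ₗ[ℂ] V := Matrix.toLin' (z : Matrix (Fin 4) (Fin 4) ℂ)
    let Le : V →ₗ[ℂ] V := Matrix.toLin' (e : Matrix (Fin 4) (Fin 4) ℂ)
    have cm : ∀ A B : GL (Fin 4) ℂ, A * B = B * A → ∀ w : V,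
        Matrix.toLin' (A : Matrix (Fin 4) (Fin 4) ℂ) (Matrix.toLin' (B : Matrix (Fin 4) (Fin 4) ℂ) w)
        = Matrix.toLin' (B : Matrix (Fin 4) (Fin 4) ℂ)
          (Matrix.toLin' (A : Matrix (Fin 4) (Fin 4) ℂ) w) := by
      intro A B h w
      rw [Matrix.toLin'_apply, Matrix.toLin'_apply, Matrix.toLin'_apply, Matrix.toLin'_apply,
        Matrix.mulVec_mulVec, Matrix.mulVec_mulVec, ← Units.val_mul, ← Units.val_mul, h]
    let W1 : Submodule ℂ V := LinearMap.ker (Lx - ξ • LinearMap.id)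
    have memW1 : ∀ w, w ∈ W1 ↔ Lx w = ξ • w := by
      intro w
      simp only [W1, LinearMap.mem_ker, LinearMap.sub_apply, LinearMap.smul_apply,
        LinearMap.id_apply, sub_eq_zero]
    have hLz1 : ∀ w ∈ W1, Lz w ∈ W1 := by
      intro w hw
      rw [memW1] at hw ⊢
      rw [cm x z r5 w]
      show Lz (Lx w) = _
      rw [hw, map_smul]
    haveI : Nontrivial W1 := ⟨⟨u, (memW1 u).2 (by rw [Matrix.toLin'_apply]; exact h1)⟩, 0,
      fun h => hu (congrArg Subtype.val h)⟩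
    obtain ⟨ζ, hζ⟩ := Module.End.exists_eigenvalue (Lz.restrict hLz1)
    obtain ⟨a, ha⟩ := hζ.exists_hasEigenvector
    have ha0 : (a : V) ≠ 0 := fun h => ha.2 (Subtype.ext h)
    have haz : Lz a = ζ • (a : V) := by
      have := ha.apply_eq_smul
      have h2 := congrArg Subtype.val this
      simpa using h2
    let W2 : Submodule ℂ V := W1 ⊓ LinearMap.ker (Lz - ζ • LinearMap.id)
    have memW2 : ∀ w, w ∈ W2 ↔ Lx w = ξ • w ∧ Lz w = ζ • w := by
      intro w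
      simp only [W2, Submodule.mem_inf, memW1, LinearMap.mem_ker, LinearMap.sub_apply,
        LinearMap.smul_apply, LinearMap.id_apply, sub_eq_zero]
    have hLe2 : ∀ w ∈ W2, Le w ∈ W2 := by
      intro w hw
      rw [memW2] at hw ⊢
      constructor
      · rw [cm x e s4 w]
        show Le (Lx w) = _
        rw [hw.1, map_smul]
      · rw [cm z e s5 w]
        show Le (Lz w) = _
        rw [hw.2, map_smul]
    haveI : Nontrivial W2 := ⟨⟨a, (memW2 a).2 ⟨(memW1 _).1 a.2, haz⟩⟩, 0,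
      fun h => ha0 (congrArg Subtype.val h)⟩
    obtain ⟨η, hη⟩ := Module.End.exists_eigenvalue (Le.restrict hLe2)
    obtain ⟨b, hb⟩ := hη.exists_hasEigenvector
    have hb0 : (b : V) ≠ 0 := fun h => hb.2 (Subtype.ext h)
    have hbe : Le b = η • (b : V) := by
      have := hb.apply_eq_smul
      have h2 := congrArg Subtype.val this
      simpa using h2
    have hbx : Lx b = ξ • (b : V) := ((memW2 _).1 b.2).1
    have hbz : Lz b = ζ • (b : V) := ((memW2 _).1 b.2).2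
    rw [Matrix.toLin'_apply] at hbe hbx hbz
    have e1 : ζ ^ 24 = 1 := hz ζ b hb0 hbz
    have e2 : η ^ 24 = 1 := he η b hb0 hbe
    -- z x e b = ζ ξ η b
    have hzxe : ((z * x * e : GL (Fin 4) ℂ) : Matrix (Fin 4) (Fin 4) ℂ) *ᵥ (b : V)
        = (ζ * ξ * η) • (b : V) := by
      rw [Units.val_mul, Units.val_mul, ← Matrix.mulVec_mulVec, hbe, Matrix.mulVec_smul,
        ← Matrix.mulVec_mulVec, hbx, Matrix.mulVec_smul, hbz, smul_smul, smul_smul]
      congr 1
      ring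
    have hvz : z * v⁻¹ = v⁻¹ * (z * x * e) := by
      have : v * z * v⁻¹ = z * x * e := by rw [s1]; group
      rw [← this]; group
    set c : V := ((v⁻¹ : GL (Fin 4) ℂ) : Matrix (Fin 4) (Fin 4) ℂ) *ᵥ (b : V) with hc
    have hc0 : c ≠ 0 := by
      intro h0
      apply hb0
      have : ((v : GL (Fin 4) ℂ) : Matrix (Fin 4) (Fin 4) ℂ) *ᵥ c = b := by
        rw [hc, Matrix.mulVec_mulVec, ← Units.val_mul, mul_inv_cancel, Units.val_one,
          Matrix.one_mulVec]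
      rw [← this, h0, Matrix.mulVec_zero]
    have hzc : (z : Matrix (Fin 4) (Fin 4) ℂ) *ᵥ c = (ζ * ξ * η) • c := by
      rw [hc, Matrix.mulVec_mulVec, ← Units.val_mul, hvz, Units.val_mul, ← Matrix.mulVec_mulVec,
        hzxe, Matrix.mulVec_smul]
    have e3 := hz _ c hc0 hzc
    rw [mul_pow, mul_pow, e1, e2, one_mul, mul_one] at e3
    exact e3

end B6c7ab
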