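import Mathlib

namespace B6c7ab

open Matrix

theorem t7_card (x : Matrix (Fin 4) (Fin 4) ℂ) : Multiset.card x.charpoly.roots = 4 := by
  rw [IsAlgClosed.card_roots_eq_natDegree, Matrix.charpoly_natDegree_eq_dim]
  rfl

/-- T7a -/
theorem finite_traces : ∃ F : Finset ℂ, ∀ x : Matrix (Fin 4) (Fin 4) ℂ,
    (∀ ξ ∈ x.charpoly.roots, ξ ^ 24 = 1) → x.trace ∈ F := by
  classical
  refine ⟨((4 • (Polynomial.nthRootsFinset 24 (1 : ℂ)).val).powerset.map Multiset.sum).toFinset, ?_⟩
  intro x hx
  rw [Matrix.trace_eq_sum_roots_charpoly]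
  rw [Multiset.mem_toFinset, Multiset.mem_map]
  refine ⟨x.charpoly.roots, ?_, rfl⟩
  rw [Multiset.mem_powerset, Multiset.le_iff_count]
  intro ξ
  by_cases h : ξ ∈ x.charpoly.roots
  · rw [Multiset.count_nsmul]
    have h1 : ξ ∈ (Polynomial.nthRootsFinset 24 (1 : ℂ)).val := by
      have : ξ ∈ Polynomial.nthRootsFinset 24 (1 : ℂ) := by
        rw [Polynomial.mem_nthRootsFinset (by norm_num)]
        exact hx ξ h
      exact this
    have h2 : 1 ≤ Multiset.count ξ (Polynomial.nthRootsFinset 24 (1 : ℂ)).val :=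
      Multiset.one_le_count_iff_mem.2 h1
    have h3 := Multiset.count_le_card ξ x.charpoly.roots
    rw [t7_card] at h3
    omega
  · rw [Multiset.count_eq_zero_of_notMem h]
    exact Nat.zero_le _

/-- T7b -/
theorem unip_of_trace (x : Matrix (Fin 4) (Fin 4) ℂ)
    (h : ∀ ξ ∈ x.charpoly.roots, ξ ^ 24 = 1) (ht : x.trace = 4) : IsNilpotent (x - 1) := by
  have hnorm : ∀ ξ ∈ x.charpoly.roots, ‖ξ‖ = 1 := by
    intro ξ hξ
    exact Complex.norm_eq_one_of_pow_eq_one (h ξ hξ) (by norm_num)
  have hall : ∀ ξ ∈ x.charpoly.roots, ξ = 1 := by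
    intro ξ hξ
    by_contra hne
    have hre : ξ.re < 1 := by
      rcases lt_or_eq_of_le (Complex.re_le_norm ξ) with h1 | h1
      · rwa [hnorm ξ hξ] at h1
      · exfalso
        rw [hnorm ξ hξ] at h1
        have h2 := Complex.sq_norm ξ
        rw [hnorm ξ hξ, Complex.normSq_apply, h1] at h2
        have h3 : ξ.im = 0 := by nlinarith
        exact hne (Complex.ext (by simp [h1]) (by simp [h3]))
    obtain ⟨m, hm⟩ := Multiset.exists_cons_of_mem hξ
    have hcard := t7_card x
    rw [hm, Multiset.card_cons] at hcard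
    have hsum : (x.charpoly.roots.map Complex.re).sum = 4 := by
      have := congrArg Complex.re (Matrix.trace_eq_sum_roots_charpoly x)
      rw [ht] at this
      rw [← Complex.coe_reAddGroupHom, ← AddMonoidHom.map_multiset_sum] 
      rw [Complex.coe_reAddGroupHom, ← this]
      norm_num
    rw [hm, Multiset.map_cons, Multiset.sum_cons] at hsum
    have hle : (m.map Complex.re).sum ≤ Multiset.card (m.map Complex.re) • (1 : ℝ) := by
      apply Multiset.sum_le_card_nsmul
      intro r hr
      rw [Multiset.mem_map] at hr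
      obtain ⟨η, hη, rfl⟩ := hr
      have : η ∈ x.charpoly.roots := by rw [hm]; exact Multiset.mem_cons_of_mem hη
      exact le_trans (Complex.re_le_norm η) (hnorm η this).le
    rw [Multiset.card_map] at hle
    have h3 : Multiset.card m = 3 := by omega
    rw [h3] at hle
    norm_num at hle
    linarith
  have hrep : x.charpoly.roots = Multiset.replicate 4 1 :=
    Multiset.eq_replicate.2 ⟨t7_card x, hall⟩
  have hchar : x.charpoly = (Polynomial.X - Polynomial.C 1) ^ 4 := by
    have h1 := (IsAlgClosed.splits x.charpoly).eq_prod_roots_of_monic (Matrix.charpoly_monic x)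
    rw [h1, hrep, Multiset.map_replicate, Multiset.prod_replicate]
  refine ⟨4, ?_⟩
  have h2 := Matrix.aeval_self_charpoly x
  rw [hchar] at h2
  simpa using h2

end B6c7ab
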