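import Mathlib
import Pool.Agent.Lib.MP_b6c7ab_al.Defs

namespace B6c7ab

/-- the upper central type series -/
def t8H1 : Subgroup N4 where
  carrier := {g | g.a = 0 ∧ g.b = 0 ∧ g.t = 0}
  one_mem' := by simp
  mul_mem' := by
    rintro g h ⟨h1, h2, h3⟩ ⟨h4, h5, h6⟩
    refine ⟨?_, ?_, ?_⟩ <;> simp [h1, h2, h3, h4, h5, h6]
  inv_mem' := by
    rintro g ⟨h1, h2, h3⟩
    refine ⟨?_, ?_, ?_⟩ <;> simp [h1, h2, h3]

/-- the second term -/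
def t8H2 : Subgroup N4 where
  carrier := {g | g.a = 0 ∧ g.t = 0}
  one_mem' := by simp
  mul_mem' := by
    rintro g h ⟨h1, h2⟩ ⟨h3, h4⟩
    refine ⟨?_, ?_⟩ <;> simp [h1, h2, h3, h4]
  inv_mem' := by
    rintro g ⟨h1, h2⟩
    refine ⟨?_, ?_⟩ <;> simp [h1, h2]

/-- the series -/
def t8H : ℕ → Subgroup N4
  | 0 => ⊥
  | 1 => t8H1
  | 2 => t8H2
  | _ + 3 => ⊤

/-- T8a -/
theorem N4_nilpotent : Group.IsNilpotent N4 := by
  rw [Subgroup.nilpotent_iff_finite_ascending_central_series]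
  refine ⟨3, t8H, ⟨rfl, ?_⟩, rfl⟩
  intro x n hx g
  match n with
  | 0 =>
    obtain ⟨h1, h2, h3⟩ : x.a = 0 ∧ x.b = 0 ∧ x.t = 0 := hx
    change _ ∈ (⊥ : Subgroup N4)
    rw [Subgroup.mem_bot, commutatorElement_def]
    ext
    · simp [h1]
    · simp [h1, h2, h3]
    · simp [h1, h2, h3]
      try ring
    · simp [h3]
  | 1 =>
    obtain ⟨h1, h2⟩ : x.a = 0 ∧ x.t = 0 := hx
    rw [commutatorElement_def]
    change (x * g * x⁻¹ * g⁻¹).a = 0 ∧ (x * g * x⁻¹ * g⁻¹).b = 0 ∧ (x * g * x⁻¹ * g⁻¹).t = 0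
    refine ⟨?_, ?_, ?_⟩ <;> simp [h1, h2]
  | 2 =>
    rw [commutatorElement_def]
    change (x * g * x⁻¹ * g⁻¹).a = 0 ∧ (x * g * x⁻¹ * g⁻¹).t = 0
    refine ⟨?_, ?_⟩ <;> simp
  | n + 3 => exact Subgroup.mem_top _

theorem t8_y (n : ℤ) : (⟨1, 0, 0, 0⟩ : N4) ^ n = ⟨n, 0, 0, 0⟩ := by
  induction n using Int.induction_on with
  | zero => rfl
  | succ n ih => rw [zpow_add_one, ih]; ext <;> simp
  | pred n ih => rw [zpow_sub_one, ih]; ext <;> simp [sub_eq_add_neg]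

theorem t8_d (n : ℤ) : (⟨0, 1, 0, 0⟩ : N4) ^ n = ⟨0, n, 0, 0⟩ := by
  induction n using Int.induction_on with
  | zero => rfl
  | succ n ih => rw [zpow_add_one, ih]; ext <;> simp
  | pred n ih => rw [zpow_sub_one, ih]; ext <;> simp [sub_eq_add_neg]

theorem t8_z (n : ℤ) : (⟨0, 0, 1, 0⟩ : N4) ^ n = ⟨0, 0, n, 0⟩ := by
  induction n using Int.induction_on with
  | zero => rfl
  | succ n ih => rw [zpow_add_one, ih]; ext <;> simp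
  | pred n ih => rw [zpow_sub_one, ih]; ext <;> simp [sub_eq_add_neg]

theorem t8_x (n : ℤ) : (⟨0, 0, 0, 1⟩ : N4) ^ n = ⟨0, 0, 0, n⟩ := by
  induction n using Int.induction_on with
  | zero => rfl
  | succ n ih => rw [zpow_add_one, ih]; ext <;> simp
  | pred n ih => rw [zpow_sub_one, ih]; ext <;> simp [sub_eq_add_neg]

/-- T8b -/
theorem N4_fg : Group.FG N4 := by
  rw [Group.fg_iff]
  refine ⟨{⟨1, 0, 0, 0⟩, ⟨0, 1, 0, 0⟩, ⟨0, 0, 1, 0⟩, ⟨0, 0, 0, 1⟩}, ?_, ?_⟩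
  · rw [eq_top_iff]
    rintro ⟨a, b, c, t⟩ -
    have : (⟨a, b, c, t⟩ : N4) = (⟨1, 0, 0, 0⟩ : N4) ^ a * (⟨0, 1, 0, 0⟩ : N4) ^ b *
        (⟨0, 0, 1, 0⟩ : N4) ^ c * (⟨0, 0, 0, 1⟩ : N4) ^ t := by
      rw [t8_y, t8_d, t8_z, t8_x]
      ext <;> simp
    rw [this]
    refine Subgroup.mul_mem _ (Subgroup.mul_mem _ (Subgroup.mul_mem _ ?_ ?_) ?_) ?_ <;>
      exact Subgroup.zpow_mem _ (Subgroup.subset_closure (by simp)) _
  · exact Set.toFinite _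

end B6c7ab
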