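import Mathlib
import Pool.Agent.Lib.MP_b6c7ab_al.Model
import Pool.Agent.Lib.MP_b6c7ab_al.T1
import Pool.Agent.Lib.MP_b6c7ab_al.T2
import Pool.Agent.Lib.MP_b6c7ab_al.T3
import Pool.Agent.Lib.MP_b6c7ab_al.T5
import Pool.Agent.Lib.MP_b6c7ab_al.T6
import Pool.Agent.Lib.MP_b6c7ab_al.T7
import Pool.Agent.Lib.MP_b6c7ab_al.T8

/-!
# MP_b6c7ab_al: main argument
-/

namespace B6c7ab

open Matrix
open scoped ComplexOrder

/-- complex `4 × 4` matrices -/
abbrev M4 : Type := Matrix (Fin 4) (Fin 4) ℂ

lemma unip_inv {a b : M4} (hab : a * b = 1) (hba : b * a = 1) (h : IsNilpotent (a - 1)) :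
    IsNilpotent (b - 1) := by
  have h1 : b - 1 = -(b * (a - 1)) := by rw [mul_sub, hba]; simp
  have h2 : Commute b (a - 1) := by
    show b * (a - 1) = (a - 1) * b
    rw [mul_sub, sub_mul, hab, hba]; simp
  rw [h1]
  exact (h2.isNilpotent_mul_left h).neg

lemma unip_mul {a b : M4} (hab : a * b = b * a) (ha : IsNilpotent (a - 1))
    (hb : IsNilpotent (b - 1)) : IsNilpotent (a * b - 1) := by
  have h1 : a * b - 1 = (a - 1) * b + (b - 1) := by noncomm_ring
  have hc : Commute (a - 1) b := by
    show (a - 1) * b = b * (a - 1)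
    rw [mul_sub, sub_mul, hab]; simp
  have hc2 : Commute (a - 1) (b - 1) := hc.sub_right (Commute.one_right _)
  rw [h1]
  apply Commute.isNilpotent_add _ (hc.isNilpotent_mul_right ha) hb
  exact hc2.mul_left ((Commute.refl b).sub_right (Commute.one_right _))

lemma unip_conj {v w a : M4} (hwv : w * v = 1) (h : IsNilpotent (a - 1)) :
    IsNilpotent (v * a * w - 1) ∨ v * w ≠ 1 := by
  by_cases hvw : v * w = 1
  · left
    obtain ⟨k, hk⟩ := h
    refine ⟨k, ?_⟩
    have : ∀ m : ℕ, (v * a * w - 1) ^ m = v * (a - 1) ^ m * w := by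
      intro m
      induction m with
      | zero => simp [hvw]
      | succ m ih =>
        rw [pow_succ, ih, pow_succ]
        have e1 : v * a * w - 1 = v * (a - 1) * w := by
          rw [mul_sub, sub_mul, mul_one, hvw]
        rw [e1]
        calc v * (a - 1) ^ m * w * (v * (a - 1) * w)
            = v * (a - 1) ^ m * (w * v) * (a - 1) * w := by noncomm_ring
          _ = v * ((a - 1) ^ m * (a - 1)) * w := by rw [hwv]; noncomm_ring
    rw [this, hk]; simp
  · right; exact hvw

section rep

variable (ρ : Rep Gam 4)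

/-- all the matrix relations, with the roots of unity statement -/
lemma roots_rep : (∀ ξ ∈ (ρ gz : M4).charpoly.roots, ξ ^ 24 = 1) ∧
    (∀ ξ ∈ (ρ gx : M4).charpoly.roots, ξ ^ 24 = 1) := by
  apply eig_root (ρ gx) (ρ gy) (ρ gd) (ρ gz) (ρ gv) (ρ ge)
  all_goals simp only [← map_mul]
  · rw [rel_a1]
  · rw [rel_a2]
  · rw [rel_a4]
  · rw [rel_a5]
  · rw [rel_a6]
  · rw [rel_b1]
  · rw [rel_b2]
  · rw [rel_b3]
  · rw [rel_b4]
  · rw [rel_b5]

lemma val_mul (a b : Gam) : (ρ (a * b) : M4) = (ρ a : M4) * (ρ b : M4) := by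
  rw [map_mul]; rfl

lemma core (hx : (ρ gx : M4).trace = 4) (hz : (ρ gz : M4).trace = 4) :
    ((ρ gx : M4) - 1) * ((ρ gx : M4) - 1) = 0 ∧
    (((ρ gx : M4) = 1 ∧ (ρ gphi : M4).trace = 4) ∨
      ((ρ gx : M4) ≠ 1 ∧ (ρ gphi : M4).trace = 2)) := by
  have R := roots_rep ρ
  have ux := unip_of_trace _ R.2 hx
  have uz := unip_of_trace _ R.1 hz
  set x : M4 := (ρ gx : M4) with hxd
  set y : M4 := (ρ gy : M4) with hyd
  set d : M4 := (ρ gd : M4) with hdd
  set z : M4 := (ρ gz : M4) with hzd
  set v : M4 := (ρ gv : M4) with hvd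
  set e : M4 := (ρ ge : M4) with hed
  set yi : M4 := (ρ gy⁻¹ : M4) with hyid
  set vi : M4 := (ρ gv⁻¹ : M4) with hvid
  set xi : M4 := (ρ gx⁻¹ : M4) with hxid
  set zi : M4 := (ρ gz⁻¹ : M4) with hzid
  have one' : (ρ 1 : M4) = 1 := by rw [map_one]; rfl
  have y1 : y * yi = 1 := by rw [hyd, hyid, ← val_mul, mul_inv_cancel, one']
  have y2 : yi * y = 1 := by rw [hyd, hyid, ← val_mul, inv_mul_cancel, one']
  have v1 : v * vi = 1 := by rw [hvd, hvid, ← val_mul, mul_inv_cancel, one']
  have v2 : vi * v = 1 := by rw [hvd, hvid, ← val_mul, inv_mul_cancel, one']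
  have x1 : x * xi = 1 := by rw [hxd, hxid, ← val_mul, mul_inv_cancel, one']
  have x2 : xi * x = 1 := by rw [hxd, hxid, ← val_mul, inv_mul_cancel, one']
  have z1 : z * zi = 1 := by rw [hzd, hzid, ← val_mul, mul_inv_cancel, one']
  have z2 : zi * z = 1 := by rw [hzd, hzid, ← val_mul, inv_mul_cancel, one']
  have a1 : x * y = y * d * z * x := by simp only [hxd, hyd, hdd, hzd, ← val_mul, rel_a1]
  have a2 : x * d = d * z * z * x := by simp only [hxd, hdd, hzd, ← val_mul, rel_a2]
  have a3 : y * d = d * y := by simp only [hyd, hdd, ← val_mul, rel_a3]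
  have a4 : y * z = z * y := by simp only [hyd, hzd, ← val_mul, rel_a4]
  have a5 : d * z = z * d := by simp only [hdd, hzd, ← val_mul, rel_a5]
  have a6 : x * z = z * x := by simp only [hxd, hzd, ← val_mul, rel_a6]
  have b1 : v * z = z * x * e * v := by simp only [hxd, hvd, hed, hzd, ← val_mul, rel_b1]
  have b2 : v * x = x * e * e * v := by simp only [hxd, hvd, hed, ← val_mul, rel_b2]
  have b3 : v * e = e * v := by simp only [hvd, hed, ← val_mul, rel_b3]
  have b4 : x * e = e * x := by simp only [hxd, hed, ← val_mul, rel_b4]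
  have b5 : z * e = e * z := by simp only [hzd, hed, ← val_mul, rel_b5]
  -- `e` is unipotent
  have ue : IsNilpotent (e - 1) := by
    have c1 : IsNilpotent (v * z * vi - 1) := by
      rcases unip_conj (v := v) (w := vi) v2 uz with h | h
      · exact h
      · exact absurd v1 h
    have e0 : v * z * vi = z * x * e := by
      rw [b1, mul_assoc _ v vi, v1, mul_one]
    have e1 : e = (v * z * vi) * (zi * xi) := by
      rw [e0]
      have : z * x * e = e * (x * z) := by
        rw [mul_assoc, b4, ← mul_assoc, b5, mul_assoc, a6]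
      rw [this]
      calc e = e * (x * (z * zi) * xi) := by rw [z1, mul_one, x1, mul_one]
        _ = e * (x * z) * (zi * xi) := by noncomm_ring
    have zixi : zi * xi = xi * zi := by
      calc zi * xi = zi * xi * ((z * x) * (xi * zi)) := by
            have : (z * x) * (xi * zi) = 1 := by
              calc (z * x) * (xi * zi) = z * (x * xi) * zi := by noncomm_ring
                _ = 1 := by rw [x1, mul_one, z1]
            rw [this, mul_one]
        _ = zi * xi * ((x * z) * (xi * zi)) := by rw [a6]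
        _ = zi * (xi * x) * z * (xi * zi) := by noncomm_ring
        _ = xi * zi := by rw [x2, mul_one, z2, one_mul]
    have uzx : IsNilpotent (zi * xi - 1) :=
      unip_mul zixi (unip_inv z1 z2 uz) (unip_inv x1 x2 ux)
    rw [e1]
    apply unip_mul _ c1 uzx
    rw [e0]
    have l1 : z * x * e * (zi * xi) = e := by
      rw [e0] at e1; exact e1.symm
    have l2 : zi * xi * (z * x * e) = e := by
      calc zi * xi * (z * x * e) = zi * xi * (x * z) * e := by rw [a6]; noncomm_ring
        _ = zi * (xi * x) * z * e := by noncomm_ring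
        _ = e := by rw [x2, mul_one, z2, one_mul]
    rw [l1, l2]
  -- `(x - 1)^2 = 0`
  have hN : (x - 1) * (x - 1) = 0 := by
    have key := flag_lemma (V := Fin 4 → ℂ) 2 (by simp)
      (toLinAlgEquiv' z) (toLinAlgEquiv' x) (toLinAlgEquiv' e) (toLinAlgEquiv' v)
      (toLinAlgEquiv' vi)
      (by rw [← map_mul, v1, map_one]) (by rw [← map_mul, v2, map_one])
      (by rw [← map_one (toLinAlgEquiv' (R := ℂ) (n := Fin 4)), ← map_sub]
          exact uz.map (toLinAlgEquiv' (R := ℂ) (n := Fin 4)))
      (by rw [← map_one (toLinAlgEquiv' (R := ℂ) (n := Fin 4)), ← map_sub]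
          exact ux.map (toLinAlgEquiv' (R := ℂ) (n := Fin 4)))
      (by rw [← map_one (toLinAlgEquiv' (R := ℂ) (n := Fin 4)), ← map_sub]
          exact ue.map (toLinAlgEquiv' (R := ℂ) (n := Fin 4)))
      (by rw [← map_mul, ← map_mul, a6]) (by rw [← map_mul, ← map_mul, b5])
      (by rw [← map_mul, ← map_mul, b4])
      (by simp only [← map_mul]; rw [b1]) (by simp only [← map_mul]; rw [b2])
      (by simp only [← map_mul]; rw [b3])
    rw [← map_one (toLinAlgEquiv' (R := ℂ) (n := Fin 4)), ← map_sub, ← map_pow,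
      map_eq_zero_iff _ (toLinAlgEquiv' (R := ℂ) (n := Fin 4)).injective, pow_two] at key
    exact key
  refine ⟨hN, ?_⟩
  obtain ⟨p1, p2, p3⟩ := algA x y d z yi y1 y2 hN uz a1 a2 a3 a4 a5 a6.symm.symm
  obtain ⟨q1, q2, q3, q4, q5, q6, q7, q8⟩ := algB x z e v vi (d - 1) v1 v2 hN p1 p2 p3 ue
    b1 b2 b3 b4 b5
  have hphi : (ρ gphi : M4) = d * v * d * vi := by
    simp only [gphi, val_mul, hdd, hvd, hvid]
  by_cases hx1 : x = 1
  · left
    refine ⟨hx1, ?_⟩
    have hz1 : z = 1 := by
      have : z - 1 = 0 := by rw [← p2, hx1]; simp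
      exact sub_eq_zero.mp this
    have hd1 : d = 1 := by
      have h := a1
      rw [hx1, hz1, one_mul, mul_one, mul_one] at h
      have := congrArg (yi * ·) h
      simp only [← mul_assoc, y2, one_mul] at this
      exact this.symm
    rw [hphi, hd1, one_mul, mul_one, v1]
    simp
  · right
    refine ⟨hx1, ?_⟩
    have hN0 : x - 1 ≠ 0 := fun h => hx1 (sub_eq_zero.mp h)
    have key := trace_main (x - 1) (e - 1) (z - 1) (d - 1) v vi hN0 v1 v2 hN q1 q2 p1 p2 p3
      q6 q7 q8
    have hD0 : (d - 1).trace = 0 := by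
      have : IsNilpotent (d - 1) := ⟨2, by rw [pow_two]; exact p1⟩
      exact (Matrix.isNilpotent_trace_of_isNilpotent this).eq_zero
    have e2 : d * v * d * vi = (d - 1) * v * (d - 1) * vi + (d - 1) * (v * vi)
        + v * (d - 1) * vi + v * vi := by noncomm_ring
    rw [hphi, e2, v1, mul_one]
    simp only [Matrix.trace_add]
    rw [key, hD0, Matrix.trace_mul_cycle, v2, one_mul, hD0]
    simp
    norm_num

lemma unitary_eq_one {U : M4} (hU : U ∈ Matrix.unitaryGroup (Fin 4) ℂ)
    (h : (U - 1) * (U - 1) = 0) : U = 1 := by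
  have h1 : star U * U = 1 := (Matrix.mem_unitaryGroup_iff').mp hU
  have h2 : U * star U = 1 := (Matrix.mem_unitaryGroup_iff).mp hU
  set N := U - 1 with hN
  have hc : star N * N = N * star N := by
    have e1 : star N * N = star U * U - star U - U + 1 := by
      rw [hN, star_sub, star_one]; noncomm_ring
    have e2 : N * star N = U * star U - star U - U + 1 := by
      rw [hN, star_sub, star_one]; noncomm_ring
    rw [e1, e2, h1, h2]
  have h3 : (star N * N) * (star N * N) = 0 := by
    calc (star N * N) * (star N * N) = star N * (N * star N) * N := by noncomm_ring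
      _ = star N * star N * (N * N) := by rw [← hc]; noncomm_ring
      _ = 0 := by rw [h, mul_zero]
  have h4 : star N * N = 0 := by
    have : (star N * N).conjTranspose * (star N * N) = 0 := by
      rw [← Matrix.star_eq_conjTranspose, star_mul, star_star]
      exact h3
    exact Matrix.conjTranspose_mul_self_eq_zero.mp this
  have h5 : N = 0 := by
    apply Matrix.conjTranspose_mul_self_eq_zero.mp
    rw [← Matrix.star_eq_conjTranspose]
    exact h4
  exact sub_eq_zero.mp h5

end rep

lemma const_of_finite {F : Set ℂ} (hF : F.Finite) (f : unitInterval → ℂ) (hf : Continuous f)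
    (h : ∀ t, f t ∈ F) : ∀ s t, f s = f t := by
  intro s t
  have h1 : IsPreconnected (Set.range f) := isPreconnected_range hf
  have h2 : (Set.range f).Finite := hF.subset (by rintro _ ⟨u, rfl⟩; exact h u)
  have h3 : (Set.range f).Subsingleton := by
    exact (Set.Countable.isTotallyDisconnected h2.countable) _ subset_rfl h1
  exact h3 ⟨s, rfl⟩ ⟨t, rfl⟩

theorem no_path (p : unitInterval → CharVar Gam 4) (hp : Continuous p) (h0 : p 0 = cls rho0) :
    p 1 ∉ unitaryPart Gam 4 := by
  rintro ⟨κ, hκ, hκ1⟩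
  obtain ⟨F, hF⟩ := finite_traces
  have hx : ∀ t, trC gx (p t) = 4 := by
    intro t
    have := const_of_finite F.finite_toSet (fun t => trC gx (p t)) ((continuous_trC gx).comp hp)
      (by
        intro t
        obtain ⟨ρ, hρ⟩ := exists_rep (p t)
        rw [← hρ, trC_cls]
        exact hF _ (roots_rep ρ).2) t 0
    rw [this, h0, trC_cls]
    exact rho0_tr_x
  have hz : ∀ t, trC gz (p t) = 4 := by
    intro t
    have := const_of_finite F.finite_toSet (fun t => trC gz (p t)) ((continuous_trC gz).comp hp)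
      (by
        intro t
        obtain ⟨ρ, hρ⟩ := exists_rep (p t)
        rw [← hρ, trC_cls]
        exact hF _ (roots_rep ρ).1) t 0
    rw [this, h0, trC_cls]
    exact rho0_tr_z
  have hphi : trC gphi (p 1) = 2 := by
    have := const_of_finite (F := ({2, 4} : Set ℂ)) (Set.toFinite _)
      (fun t => trC gphi (p t)) ((continuous_trC gphi).comp hp)
      (by
        intro t
        obtain ⟨ρ, hρ⟩ := exists_rep (p t)
        have h1 := hx t
        have h2 := hz t
        rw [← hρ, trC_cls] at h1 h2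
        rw [← hρ, trC_cls]
        rcases (core ρ h1 h2).2 with ⟨_, h⟩ | ⟨_, h⟩
        · right; exact h
        · left; exact h) 1 0
    rw [this, h0, trC_cls]
    exact rho0_tr_phi
  have h1 := hx 1
  have h2 := hz 1
  rw [← hκ1, trC_cls] at h1 h2 hphi
  obtain ⟨c1, c2⟩ := core κ h1 h2
  have hx1 : (κ gx : M4) = 1 := unitary_eq_one (hκ gx) c1
  rcases c2 with ⟨_, h⟩ | ⟨h, _⟩
  · rw [h] at hphi; norm_num at hphi
  · exact h hx1

end B6c7ab
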